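import Mathlib

/-!
S05864 [H80 RC CST] (PART C6 of proofs 322): numbers.
-/

set_option autoImplicit false

namespace H50RC

theorem cst_J {K : ℕ} (hK : 2 ≤ K) : (K : ℝ) ^ 40 ≤ 2 ^ (40 * Nat.clog 2 K) ∧
    (2 : ℝ) ^ (40 * Nat.clog 2 K) ≤ (K : ℝ) ^ 80 ∧ ((40 * Nat.clog 2 K : ℕ) : ℝ) ^ 2 ≤ 9600 * K := by
  have h1 : K ≤ 2 ^ Nat.clog 2 K := Nat.le_pow_clog (by norm_num) K
  have h2 : 2 ^ (Nat.clog 2 K).pred < K := Nat.pow_pred_clog_lt_self (by norm_num) (by omega)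
  obtain ⟨n, hn⟩ : ∃ n, n = Nat.clog 2 K := ⟨_, rfl⟩
  rw [← hn] at h1 h2 ⊢
  have hn1 : 1 ≤ n := by
    rcases Nat.eq_zero_or_pos n with h | h
    · rw [h] at h1
      simp at h1
      omega
    · exact h
  have hpred : n.pred = n - 1 := rfl
  rw [hpred] at h2
  have h3 : 2 ^ n ≤ K ^ 2 := by
    have e1 : 2 ^ n = 2 * 2 ^ (n - 1) := by
      rw [← pow_succ']
      congr 1
      omega
    rw [e1, sq]
    exact Nat.mul_le_mul hK h2.le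
  refine ⟨?_, ?_, ?_⟩
  · rw [mul_comm, pow_mul]
    exact pow_le_pow_left₀ (by positivity) (by exact_mod_cast h1) 40
  · rw [mul_comm, pow_mul]
    have e1 : ((2 : ℝ) ^ n) ^ 40 ≤ ((K : ℝ) ^ 2) ^ 40 := pow_le_pow_left₀ (by positivity) (by exact_mod_cast h3) 40
    refine e1.trans (le_of_eq ?_)
    rw [← pow_mul]
  · have hk : ∀ k : ℕ, k ^ 2 ≤ 2 ^ (k + 1) := by
      intro k
      induction k with
      | zero => norm_num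
      | succ k ih =>
        rcases Nat.lt_or_ge k 3 with h | h
        · interval_cases k <;> norm_num
        · have e1 : 2 ^ (k + 1 + 1) = 2 * 2 ^ (k + 1) := by ring
          rw [e1]
          nlinarith
    have h4 := hk (n - 1)
    have e2 : 2 ^ (n - 1 + 1) = 2 * 2 ^ (n - 1) := by ring
    rw [e2] at h4
    have h5 : (n - 1) ^ 2 ≤ 2 * K := h4.trans (Nat.mul_le_mul_left 2 h2.le)
    have h6 : n ^ 2 ≤ 5 * K := by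
      obtain ⟨k, rfl⟩ : ∃ k, n = k + 1 := ⟨n - 1, by omega⟩
      rw [Nat.add_sub_cancel] at h5
      nlinarith [sq_nonneg ((k : ℤ) - 1)]
    have h7 : (40 * n) ^ 2 ≤ 9600 * K := by nlinarith
    exact_mod_cast h7

/-- the energy bound of a process -/
theorem cst_E {θ ρ : ℝ} {K J : ℕ} (hθ : 0 < θ) (hρ : 1 ≤ ρ) (hK : 2 ≤ K) (hK1 : 203840 * ρ ^ 2 / θ ≤ K)
    (hJ2 : (2 : ℝ) ^ J ≤ (K : ℝ) ^ 80) :
    θ⁻¹ * (θ ^ 2 * K) + ((θ / (520 * ρ ^ 2 * (K : ℝ) ^ 5))⁻¹ * (2 * ((K : ℝ) ^ 20)⁻¹ * (K * 4) +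
      (K + 1) * 4 ^ 2 * (K * 4 / ((((K : ℝ) ^ 20)⁻¹ / (2 ^ J * 3)) * ((K ^ 120 : ℕ) : ℝ)))) +
      (16 * ((K : ℝ) + 1))⁻¹ * ((K + 1) * 4 ^ 2)) ≤ θ * K + 2 := by
  have hK2 : (2 : ℝ) ≤ K := by exact_mod_cast hK
  have hK0 : (0 : ℝ) < K := by linarith
  have hKp : ∀ n : ℕ, (0 : ℝ) < (K : ℝ) ^ n := fun n => pow_pos hK0 n
  have e1 : θ⁻¹ * (θ ^ 2 * K) = θ * K := by
    field_simp
  have e2 : (16 * ((K : ℝ) + 1))⁻¹ * ((K + 1) * 4 ^ 2) = 1 := by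
    field_simp
    norm_num
  have e3 : (K : ℝ) * 4 / ((((K : ℝ) ^ 20)⁻¹ / (2 ^ J * 3)) * ((K ^ 120 : ℕ) : ℝ)) ≤ 12 * K / (K : ℝ) ^ 20 := by
    have f1 : (K : ℝ) * 4 / ((((K : ℝ) ^ 20)⁻¹ / (2 ^ J * 3)) * ((K ^ 120 : ℕ) : ℝ)) =
        12 * K * 2 ^ J / (K : ℝ) ^ 100 := by
      push_cast
      have : (K : ℝ) ^ 120 = (K : ℝ) ^ 20 * (K : ℝ) ^ 100 := by rw [← pow_add]
      rw [this]
      field_simp
      norm_num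
    rw [f1]
    have f2 : (K : ℝ) ^ 100 = (K : ℝ) ^ 20 * (K : ℝ) ^ 80 := by rw [← pow_add]
    rw [f2, div_le_div_iff₀ (by positivity) (by positivity)]
    have f3 : 12 * (K : ℝ) * 2 ^ J * (K : ℝ) ^ 20 ≤ 12 * (K : ℝ) * (K : ℝ) ^ 80 * (K : ℝ) ^ 20 := by
      have := mul_le_mul_of_nonneg_left hJ2 (by positivity : (0 : ℝ) ≤ 12 * K)
      exact mul_le_mul_of_nonneg_right this (by positivity)
    refine f3.trans (le_of_eq ?_)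
    ring
  have e4 : 2 * ((K : ℝ) ^ 20)⁻¹ * (K * 4) +
      (K + 1) * 4 ^ 2 * (K * 4 / ((((K : ℝ) ^ 20)⁻¹ / (2 ^ J * 3)) * ((K ^ 120 : ℕ) : ℝ))) ≤
      392 * (K : ℝ) ^ 2 / (K : ℝ) ^ 20 := by
    have f1 := mul_le_mul_of_nonneg_left e3 (by positivity : (0 : ℝ) ≤ ((K : ℝ) + 1) * 4 ^ 2)
    have f2 : 2 * ((K : ℝ) ^ 20)⁻¹ * (K * 4) = 8 * K / (K : ℝ) ^ 20 := by
      field_simp
      norm_num
    rw [f2]
    have f3 : ((K : ℝ) + 1) * 4 ^ 2 * (12 * K / (K : ℝ) ^ 20) = (192 * K ^ 2 + 192 * K) / (K : ℝ) ^ 20 := by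
      field_simp
      ring
    rw [f3] at f1
    refine (add_le_add le_rfl f1).trans ?_
    rw [← add_div]
    refine div_le_div_of_nonneg_right ?_ (by positivity)
    nlinarith
  have e5 : (θ / (520 * ρ ^ 2 * (K : ℝ) ^ 5))⁻¹ * (392 * (K : ℝ) ^ 2 / (K : ℝ) ^ 20) ≤ 1 := by
    have f1 : (θ / (520 * ρ ^ 2 * (K : ℝ) ^ 5))⁻¹ * (392 * (K : ℝ) ^ 2 / (K : ℝ) ^ 20) =
        203840 * ρ ^ 2 / θ * ((K : ℝ) ^ 7 / (K : ℝ) ^ 20) := by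
      field_simp
      norm_num
    rw [f1]
    have f2 : (K : ℝ) ^ 7 / (K : ℝ) ^ 20 ≤ (K : ℝ)⁻¹ := by
      rw [div_le_iff₀ (by positivity), inv_mul_eq_div, le_div_iff₀ hK0, ← pow_succ]
      exact pow_le_pow_right₀ (by linarith) (by norm_num)
    have f3 : 0 ≤ 203840 * ρ ^ 2 / θ := by positivity
    calc 203840 * ρ ^ 2 / θ * ((K : ℝ) ^ 7 / (K : ℝ) ^ 20) ≤ K * (K : ℝ)⁻¹ :=
          mul_le_mul hK1 f2 (by positivity) hK0.le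
      _ = 1 := mul_inv_cancel₀ hK0.ne'
  have e6 : 0 < θ / (520 * ρ ^ 2 * (K : ℝ) ^ 5) := by positivity
  have e7 := mul_le_mul_of_nonneg_left e4 (inv_pos.2 e6).le
  rw [e1, e2]
  linarith

/-- the noisy steps -/
theorem cst_N {ρ : ℝ} {K J : ℕ} (hρ : 1 ≤ ρ) (hK : 2 ≤ K) (hK1 : 256 * ρ ≤ K) (hJ1 : (K : ℝ) ^ 40 ≤ 2 ^ J) :
    8 * ρ * (2 ^ J)⁻¹ * (2 * 4) * (K * 4 / ((K : ℝ) ^ 20)⁻¹) ≤ 1 := by
  have hK2 : (2 : ℝ) ≤ K := by exact_mod_cast hK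
  have hK0 : (0 : ℝ) < K := by linarith
  have e1 : 8 * ρ * (2 ^ J)⁻¹ * (2 * 4) * (K * 4 / ((K : ℝ) ^ 20)⁻¹) = 256 * ρ * (K : ℝ) ^ 21 * ((2 : ℝ) ^ J)⁻¹ := by
    field_simp
    norm_num
  rw [e1]
  have e2 : ((2 : ℝ) ^ J)⁻¹ ≤ ((K : ℝ) ^ 40)⁻¹ := inv_anti₀ (by positivity) hJ1
  have e3 : 256 * ρ * (K : ℝ) ^ 21 ≤ (K : ℝ) ^ 22 := by
    have := mul_le_mul_of_nonneg_right hK1 (by positivity : (0 : ℝ) ≤ (K : ℝ) ^ 21)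
    refine this.trans (le_of_eq ?_)
    ring
  calc 256 * ρ * (K : ℝ) ^ 21 * ((2 : ℝ) ^ J)⁻¹ ≤ (K : ℝ) ^ 22 * ((K : ℝ) ^ 40)⁻¹ :=
        mul_le_mul e3 e2 (by positivity) (by positivity)
    _ ≤ 1 := by
        rw [mul_inv_le_iff₀ (by positivity), one_mul]
        exact pow_le_pow_right₀ (by linarith) (by norm_num)

end H50RC
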