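import Pool.Agent.H80.RC.Tsm
import Pool.Agent.H80.RC.Cst
import Pool.Agent.H50.RC.Core

/-!
S05864 [H80 RC MST] (PART C6 of proofs 322): the main estimate (3.1).
-/

set_option autoImplicit false

namespace H50RC

variable {N K m L R0 J : ℕ} {ε : ℝ}

theorem C1c_pos (hm : 2 ≤ m) (hε : 0 < ε) : 0 ≤ C1c m L ε := by
  have := one_le_rp hm
  unfold C1c
  positivity

/-- a phase of weight `0` is a single window -/
theorem main_zero {C1 : ℝ} (hC : 0 ≤ C1) (hLOK : LOK K m L ε C1 (S.init N).σ.M (S.init N).σ.v) {t : PTr N}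
    (hOK : t.OK K m) (hW : t.W = 0) : |t.sum (Wd.win K m)| ≤ 12 * C1 * (t.W + t.sum (Wd.V K) + t.sum Wd.SE) := by
  cases t with
  | leaf lv W ν y =>
    have h' : 0 < W := hOK.1
    have h2 : W = 0 := hW
    exact absurd h2 h'.ne'
  | node D sub =>
    have hD : D.OK K m := hOK.1
    have hW' : D.W = 0 := hW
    have hne : D.ne = ∅ := by
      unfold Wd.ne
      rw [hD.W_zero hW', Finset.sdiff_self]
    have hs : ∀ f : Wd N → ℝ, (PTr.node D sub).sum f = f D := by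
      intro f
      rw [PTr.sum_node, hne, Finset.sum_empty, add_zero]
    rw [hs, hs, hs, hW, zero_add]
    have h1 := Wd.win_zero hD hC hLOK hW'
    have hV := D.V_nonneg (K := K)
    have hS := Wd.SE_nonneg hD
    have h2 : 0 ≤ C1 * D.V K := mul_nonneg hC hV
    linarith

theorem P2_eQ_le {θ : ℝ} (hθ : 0 < θ) (hm : 2 ≤ m) (hK : 2 ≤ K) (hK1 : 203840 * rp m ^ 2 / θ ≤ K)
    (hJ2 : (2 : ℝ) ^ J ≤ (K : ℝ) ^ 80) {t : PT N} {y : Y N} (ht : t.WFP K 4 y)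
    (hg : t.Thr (((K : ℝ) ^ 20)⁻¹ / (2 ^ J * 3)) y) (hy : y ∈ Vs N K) (hyB : nr K y ≤ 4)
    (hX : t.ES (K ^ 120) (eF K m L ε) (S.init N) y ≤ θ ^ 2 * K) :
    t.ES (K ^ 120) (eQ K m L ε ((K : ℝ) ^ 20)⁻¹ (K ^ 120) θ (θ / (520 * rp m ^ 2 * (K : ℝ) ^ 5))
      (16 * ((K : ℝ) + 1))) (S.init N) y ≤ θ * K + 2 := by
  have hrp := one_le_rp hm
  have hK0 : (0 : ℝ) < K := by
    have : (2 : ℝ) ≤ K := by exact_mod_cast hK
    linarith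
  refine le_trans ?_ (cst_E hθ hrp hK hK1 hJ2)
  exact ES_eQ_le (by norm_num) (by positivity) hθ (by positivity) (by positivity) (by positivity) (by positivity)
    t y ht hg hy hyB hX

theorem main_pos {θ : ℝ} (hθ : 0 < θ) (hm : 2 ≤ m) (hL : 0 < L) (hmL : m ∣ L) (hε : 0 < ε) (hε1 : ε ≤ 1)
    (hA : ∀ (t : PT N) (y : Y N), t.WFP K 4 y → y ∈ Vs N K → nr K y ≤ 4 →
      t.ES (K ^ 120) (eF K m L ε) (S.init N) y ≤ θ ^ 2 * K)
    (hK : 2 ≤ K) (hK1 : 203840 * rp m ^ 2 / θ ≤ K) (hK2 : 256 * rp m ≤ K)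
    (hN1 : 1 ≤ N) (hN2 : bigN K ((K + 1) * K ^ 120) m ε ≤ N)
    (hN3 : 16 * ((K : ℝ) + 1) * (130 * rp m ^ 2 * (K : ℝ) ^ 5) / θ ≤ N)
    {t : PTr N} (hOK : t.OK K m) (hW : 0 < t.W) :
    |t.sum (Wd.win K m)| ≤ (16003 * θ * K + 970 * C1c m L ε + 8 * C1c m L ε * ((40 * Nat.clog 2 K : ℕ) : ℝ) + 7) *
      (t.W + t.sum (Wd.V K) + t.sum Wd.SE) := by
  obtain ⟨hJ1, hJ2, -⟩ := cst_J hK
  obtain ⟨J, hJ⟩ : ∃ J, J = 40 * Nat.clog 2 K := ⟨_, rfl⟩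
  rw [← hJ] at hJ1 hJ2 ⊢
  have hrp := one_le_rp hm
  have hK2' : (2 : ℝ) ≤ K := by exact_mod_cast hK
  have hK0 : (0 : ℝ) < K := by linarith
  have hN0 : (0 : ℝ) < N := by exact_mod_cast hN1
  have hC := C1c_pos (L := L) hm hε
  obtain ⟨θ1, hθ1e⟩ : ∃ θ1, θ1 = θ / (520 * rp m ^ 2 * (K : ℝ) ^ 5) := ⟨_, rfl⟩
  obtain ⟨θ2, hθ2e⟩ : ∃ θ2, θ2 = 16 * ((K : ℝ) + 1) := ⟨_, rfl⟩
  have hθ1 : 0 < θ1 := by rw [hθ1e]; positivity
  have hθ2 : 0 < θ2 := by rw [hθ2e]; positivity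
  obtain ⟨h, hh⟩ : ∃ h, h = ((K : ℝ) ^ 20)⁻¹ := ⟨_, rfl⟩
  have hh0 : 0 < h := by rw [hh]; positivity
  obtain ⟨g, hg⟩ : ∃ g, g = h / (2 ^ J * 3) := ⟨_, rfl⟩
  have hg0 : 0 < g := by rw [hg]; positivity
  have hg3 : 2 ^ J * 3 * g ≤ h := by
    rw [hg, mul_div_cancel₀ _ (by positivity)]
  have h2J : (1 : ℝ) ≤ 2 ^ J := one_le_pow₀ (by norm_num)
  have hg2 : 2 * g ≤ h := by
    have : 1 * g ≤ 2 ^ J * g := mul_le_mul_of_nonneg_right h2J hg0.le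
    nlinarith
  have hg1 : g ≤ h := by linarith
  have hLOK : ∀ s : S N, Inv K 4 (K ^ 120) s → LOK K m L ε (C1c m L ε) s.σ.M s.σ.v := fun s hs =>
    LOK_of (by omega) hm hL hmL hε hε1 hN2 (okh_PC hs.ok) (okh_len hs.ok) hs.cardM _ le_rfl
  have hyV := nv_mem hOK hW
  have hyB := nr_nv_le hOK hW
  have hctb : ctb K m N θ θ1 θ2 ≤ 3 * θ := by
    have e1 : θ1 * (520 * rp m ^ 2 * (K : ℝ) ^ 5) = θ := by
      rw [hθ1e]
      field_simp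
    have e2 : θ2 * (130 * rp m ^ 2 * (K : ℝ) ^ 5 * (N : ℝ)⁻¹) ≤ θ := by
      rw [div_le_iff₀ hθ] at hN3
      rw [hθ2e, ← mul_assoc, mul_inv_le_iff₀ hN0]
      linarith
    unfold ctb
    linarith
  have hθ1θ : θ1 ≤ θ := by
    rw [hθ1e]
    refine div_le_self hθ.le ?_
    have e1 : (1 : ℝ) ≤ rp m ^ 2 := one_le_pow₀ hrp
    have e2 : (1 : ℝ) ≤ (K : ℝ) ^ 5 := one_le_pow₀ (by linarith)
    nlinarith
  have hT := Tall (K := K) (m := m) (L := L) (ε := ε) (h := h) (R0 := K ^ 120) (J := J) hθ hθ1 hθ2 (by omega) hN1 hm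
    hh0.le hC hLOK hOK hW
  -- the three expectations
  have w1 := P1_WFP (h := h) t hOK hW
  have w2 := P2_WFP (h := h) (J := J) t hOK hW
  have w3 := P3_WFP (h := h) t hOK hW
  have t1 := P1_Thr hh0.le hg2 t hOK hW
  have t2 := P2_Thr (J := J) hg0.le hg3 t hOK hW
  have t3 := P3_Thr hg1 t hOK hW
  have t3' := P3_Thr (le_refl h) t hOK hW
  have E1 : (P1 K h t).ES (K ^ 120) (eQ K m L ε h (K ^ 120) θ θ1 θ2) (S.init N) t.nv ≤ θ * K + 2 := by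
    rw [hh] at w1 t1 ⊢
    rw [hg, hh] at t1
    rw [hθ1e, hθ2e]
    exact P2_eQ_le hθ hm hK hK1 hJ2 w1 t1 hyV hyB (hA _ _ w1 hyV hyB)
  have E2 : (P2 K h J t).ES (K ^ 120) (eQ K m L ε h (K ^ 120) θ θ1 θ2) (S.init N) t.nv ≤ θ * K + 2 := by
    rw [hh] at w2 t2 ⊢
    rw [hg, hh] at t2
    rw [hθ1e, hθ2e]
    exact P2_eQ_le hθ hm hK hK1 hJ2 w2 t2 hyV hyB (hA _ _ w2 hyV hyB)
  have E3 : (P3 K h t).ES (K ^ 120) (eR K m L ε h (K ^ 120) θ θ1 θ2 (8 * rp m * (2 ^ J)⁻¹)) (S.init N) t.nv ≤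
      θ * K + 3 := by
    have e1 : (P3 K h t).ES (K ^ 120) (eQ K m L ε h (K ^ 120) θ θ1 θ2) (S.init N) t.nv ≤ θ * K + 2 := by
      rw [hh] at w3 t3 ⊢
      rw [hg, hh] at t3
      rw [hθ1e, hθ2e]
      exact P2_eQ_le hθ hm hK hK1 hJ2 w3 t3 hyV hyB (hA _ _ w3 hyV hyB)
    have e2 := ES_eN_init (R0 := K ^ 120) (by norm_num) hh0 (P3 K h t) t.nv w3 (P3_Ns t hOK hW) t3' hyV hyB
    have e3 : (P3 K h t).ES (K ^ 120) (eR K m L ε h (K ^ 120) θ θ1 θ2 (8 * rp m * (2 ^ J)⁻¹)) (S.init N) t.nv =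
        (P3 K h t).ES (K ^ 120) (eQ K m L ε h (K ^ 120) θ θ1 θ2) (S.init N) t.nv +
        8 * rp m * (2 ^ J)⁻¹ * (2 * 4) * (P3 K h t).ES (K ^ 120) (eN K h) (S.init N) t.nv := by
      have a1 := ES_add (R0 := K ^ 120) (eQ K m L ε h (K ^ 120) θ θ1 θ2)
        (fun s y y' => 8 * rp m * (2 ^ J)⁻¹ * (2 * 4) * eN K h s y y') (P3 K h t) (S.init N) t.nv
      have a2 := ES_mul (R0 := K ^ 120) (8 * rp m * (2 ^ J)⁻¹ * (2 * 4)) (eN K h) (P3 K h t) (S.init N) t.nv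
      rw [a2] at a1
      exact a1
    have e4 := cst_N hrp hK hK2 hJ1
    rw [← hh] at e4
    have e5 := mul_le_mul_of_nonneg_left e2 (by positivity : (0 : ℝ) ≤ 8 * rp m * (2 ^ J)⁻¹ * (2 * 4))
    rw [e3]
    linarith
  have hV : 0 ≤ t.sum (Wd.V K) := PTr.sum_nonneg (fun D _ => D.V_nonneg) hOK
  have hS : 0 ≤ t.sum Wd.SE := PTr.sum_nonneg (fun D hD => Wd.SE_nonneg hD) hOK
  have k1 : θ + θ1 + 2 * ctb K m N θ θ1 θ2 ≤ 8 * θ := by linarith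
  have k2 := mul_le_mul_of_nonneg_right k1 (by positivity : (0 : ℝ) ≤ 2000 * K * (t.W + t.sum (Wd.V K) + t.sum Wd.SE))
  have k3 := mul_le_mul_of_nonneg_left (add_le_add (add_le_add E1 E2) E3) hW.le
  have k4 : 0 ≤ C1c m L ε * t.W := mul_nonneg hC hW.le
  have k5 : 0 ≤ C1c m L ε * ((J : ℝ) * (t.sum (Wd.V K) + t.sum Wd.SE)) := by positivity
  have k6 : 0 ≤ θ * K * (t.sum (Wd.V K) + t.sum Wd.SE) := by positivity
  nlinarith

theorem mainStatement : MainStatement := by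
  intro κ hκ
  obtain ⟨θ, hθe⟩ : ∃ θ, θ = κ / 64012 := ⟨_, rfl⟩
  have hθ : 0 < θ := by rw [hθe]; positivity
  obtain ⟨m, L, ε, hm, hL, hmL, hε, hε1, -, K1, hA⟩ := A1 (θ ^ 2) (by positivity)
  refine ⟨m, hm, ?_⟩
  have hC := C1c_pos (L := L) hm hε
  obtain ⟨C, hCe⟩ : ∃ C, C = C1c m L ε := ⟨_, rfl⟩
  rw [← hCe] at hC
  obtain ⟨n1, hn1⟩ := exists_nat_ge (203840 * rp m ^ 2 / θ)
  obtain ⟨n2, hn2⟩ := exists_nat_ge (256 * rp m)
  obtain ⟨n3, hn3⟩ := exists_nat_ge (28 / κ)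
  obtain ⟨n4, hn4⟩ := exists_nat_ge (4 * 970 * C / κ)
  obtain ⟨n5, hn5⟩ := exists_nat_ge (9600 * (32 * C) ^ 2 / κ ^ 2)
  refine ⟨2 + K1 + n1 + n2 + n3 + n4 + n5, fun K hK => ?_⟩
  have hKr : ∀ n : ℕ, n ≤ K → (n : ℝ) ≤ K := fun n hn => by exact_mod_cast hn
  have hK2 : 2 ≤ K := by omega
  have hK0 : (0 : ℝ) < K := by
    have := hKr 2 hK2
    push_cast at this
    linarith
  have b1 := hn1.trans (hKr n1 (by omega))
  have b2 := hn2.trans (hKr n2 (by omega))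
  have b3 := hn3.trans (hKr n3 (by omega))
  have b4 := hn4.trans (hKr n4 (by omega))
  have b5 := hn5.trans (hKr n5 (by omega))
  rw [div_le_iff₀ hκ] at b3 b4
  rw [div_le_iff₀ (by positivity)] at b5
  obtain ⟨N1, hN1⟩ := exists_nat_ge (bigN K ((K + 1) * K ^ 120) m ε)
  obtain ⟨N2, hN2⟩ := exists_nat_ge (16 * ((K : ℝ) + 1) * (130 * rp m ^ 2 * (K : ℝ) ^ 5) / θ)
  refine ⟨1 + N1 + N2, fun N hN P hOK _ => ?_⟩
  have hNr : ∀ n : ℕ, n ≤ N → (n : ℝ) ≤ N := fun n hn => by exact_mod_cast hn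
  have c1 := hN1.trans (hNr N1 (by omega))
  have c2 := hN2.trans (hNr N2 (by omega))
  have hV : 0 ≤ P.sum (Wd.V K) := PTr.sum_nonneg (fun D _ => D.V_nonneg) hOK
  have hS : 0 ≤ P.sum Wd.SE := PTr.sum_nonneg (fun D hD => Wd.SE_nonneg hD) hOK
  have hW0 := PTr.W_nonneg hOK
  have hT : 0 ≤ P.W + P.sum (Wd.V K) + P.sum Wd.SE := by positivity
  have hJ := (cst_J hK2).2.2
  have hCJ : 8 * C * ((40 * Nat.clog 2 K : ℕ) : ℝ) ≤ κ / 4 * K := by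
    refine abs_le_of_sq_le_sq' ?_ (by positivity) |>.2
    obtain ⟨X, hX⟩ : ∃ X : ℝ, X = ((40 * Nat.clog 2 K : ℕ) : ℝ) := ⟨_, rfl⟩
    rw [← hX] at hJ ⊢
    have e1 : (8 * C * X) ^ 2 = 64 * C ^ 2 * X ^ 2 := by ring
    have e2 := mul_le_mul_of_nonneg_left hJ (by positivity : (0 : ℝ) ≤ 64 * C ^ 2)
    rw [e1]
    refine e2.trans ?_
    have e3 := mul_le_mul_of_nonneg_right b5 hK0.le
    nlinarith
  rcases hW0.eq_or_lt with hW | hW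
  · have hLOK : LOK K m L ε C (S.init N).σ.M (S.init N).σ.v := by
      have hI : Inv K 4 (K ^ 120) (S.init N) := inv_init
      exact LOK_of (by omega) hm hL hmL hε hε1 c1 (okh_PC hI.ok) (okh_len hI.ok) hI.cardM _ hCe.ge
    refine (main_zero hC hLOK hOK hW.symm).trans (mul_le_mul_of_nonneg_right ?_ hT)
    nlinarith
  · have hmain := main_pos hθ hm hL hmL hε hε1 (fun t y ht hy hyB => hA K (K ^ 120) N (by omega) c1 t y ht hy hyB)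
      hK2 b1 b2 (by omega) c1 c2 hOK hW
    refine hmain.trans (mul_le_mul_of_nonneg_right ?_ hT)
    rw [← hCe]
    have e1 : 16003 * θ * K = κ / 4 * K := by
      rw [hθe]
      ring
    rw [e1]
    linarith

end H50RC
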