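import Pool.Agent.H80.RC.Pcs

/-!
S05864 [H80 RC DYP] (PART C6 of proofs 322): the dyadic process. All by induction on `j` for all `i` with `(i + 1) 2^j ≤ n`
(the two halves of `(j+1, i)` are `(j, 2i)`, `(j, 2i+1)`; `(2i + 2) 2^j = (i+1) 2^(j+1)`); `av_succ` gives the mean; `av_mem`, `av_le` give the membership and the norm.
`dyP_est`: `dy G (j+1) i = 2^(j+1) G j i + dy G j (2i) + dy G j (2i+1)`; the first step costs `2^(j+1) G j i ≤ 2^j (2 C j i + E s' y y_lo + E s' y y_hi)`.
-/

set_option autoImplicit false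

namespace H50RC

variable {N K R0 : ℕ} {B h : ℝ}

theorem av_mem_Vs {f : ℕ → Y N} {n j i : ℕ} (hf : ∀ x, x < n → f x ∈ Vs N K) (hn : (i + 1) * 2 ^ j ≤ n) :
    av f j i ∈ Vs N K := av_mem (Vs N K) fun x _ hx => hf x (lt_of_lt_of_le hx hn)

theorem nr_av_le {f : ℕ → Y N} {n j i : ℕ} (hf : ∀ x, x < n → nr K (f x) ≤ B) (hn : (i + 1) * 2 ^ j ≤ n) :
    nr K (av f j i) ≤ B :=
  av_le (p := nr K) nr_add_le nr_smul fun x _ hx => hf x (lt_of_lt_of_le hx hn)

theorem dyP_WFP {f : ℕ → Y N} {tl : ℕ → PT N} {n : ℕ} (hf : ∀ x, x < n → f x ∈ Vs N K)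
    (hB : ∀ x, x < n → nr K (f x) ≤ B) (ht : ∀ x, x < n → (tl x).WFP K B (f x)) (j : ℕ) :
    ∀ i, (i + 1) * 2 ^ j ≤ n → (dyP K h f tl j i).WFP K B (av f j i) := by
  induction j with
  | zero =>
    intro i hi
    rw [dyP, av_zero]
    exact ht i (by rw [pow_zero, mul_one] at hi; omega)
  | succ j ih =>
    intro i hi
    have h1 : (2 * i + 1 + 1) * 2 ^ j ≤ n := by
      refine le_trans (le_of_eq ?_) hi
      ring
    have h2 : (2 * i + 1) * 2 ^ j ≤ n := le_trans (Nat.mul_le_mul_right _ (by omega)) h1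
    rw [dyP]
    refine ⟨?_, ⟨?_, ?_, ?_, ?_, ?_⟩, ?_⟩
    · exact Finset.union_subset (big_sub _) (Finset.union_subset (big_sub _) (big_sub _))
    · intro i
      norm_num
    · rw [Fintype.sum_bool]
      norm_num
    · rw [Fintype.sum_bool, av_succ]
      simp only [if_true, Bool.false_eq_true, if_false]
      rw [smul_add, add_comm]
    · rintro (b | b)
      · simpa using av_mem_Vs hf h2
      · simpa using av_mem_Vs hf h1
    · rintro (b | b)
      · simpa using nr_av_le hB h2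
      · simpa using nr_av_le hB h1
    · rintro (b | b)
      · simpa using ih (2 * i) h2
      · simpa using ih (2 * i + 1) h1

theorem dyP_Thr (hh : 0 ≤ h) {f : ℕ → Y N} {tl : ℕ → PT N} {n : ℕ} {g : ℝ} (hg : 2 * g ≤ h)
    (ht : ∀ x, x < n → (tl x).Thr g (f x)) (j : ℕ) :
    ∀ i, (i + 1) * 2 ^ j ≤ n → (dyP K h f tl j i).Thr g (av f j i) := by
  induction j with
  | zero =>
    intro i hi
    rw [dyP, av_zero]
    exact ht i (by rw [pow_zero, mul_one] at hi; omega)
  | succ j ih =>
    intro i hi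
    have h1 : (2 * i + 1 + 1) * 2 ^ j ≤ n := by
      refine le_trans (le_of_eq ?_) hi
      ring
    have h2 : (2 * i + 1) * 2 ^ j ≤ n := le_trans (Nat.mul_le_mul_right _ (by omega)) h1
    rw [dyP]
    refine ⟨?_, ?_⟩
    · intro q hq
      have hnx : ∀ t0 : Bool → PT N, (PT.jump Bool inferInstance (fun _ => (2 : ℝ)⁻¹)
          (fun b => av f j (if b then 2 * i + 1 else 2 * i)) t0).nx q =
          (2 : ℝ)⁻¹ * ‖av f j (2 * i + 1) q‖ + (2 : ℝ)⁻¹ * ‖av f j (2 * i) q‖ := by
        intro t0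
        rw [PT.nx, Fintype.sum_bool]
        simp
      rw [hnx]
      have n1 := norm_nonneg (av f j (2 * i + 1) q)
      have n2 := norm_nonneg (av f j (2 * i) q)
      rcases Finset.mem_union.1 hq with hq | hq
      · left
        have := (mem_big.1 hq).2
        linarith
      · right
        rcases Finset.mem_union.1 hq with hq | hq
        · have := (mem_big.1 hq).2
          linarith
        · have := (mem_big.1 hq).2
          linarith
    · rintro (b | b)
      · simpa using ih (2 * i) h2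
      · simpa using ih (2 * i + 1) h1

theorem dyP_est {E : S N → Y N → Y N → ℝ} {G C : ℕ → ℕ → ℝ} {Lw : ℕ → ℝ} {f : ℕ → Y N} {tl : ℕ → PT N} {n : ℕ}
    (hf : ∀ x, x < n → f x ∈ Vs N K) (hB : ∀ x, x < n → nr K (f x) ≤ B)
    (hG : ∀ j i, (i + 1) * 2 ^ (j + 1) ≤ n → ∀ s : S N, Inv K B R0 s → QuietL K h R0 s (av f (j + 1) i) →
      QuietL K h R0 s (av f j (2 * i)) → QuietL K h R0 s (av f j (2 * i + 1)) →
      G j i ≤ C j i + E s (av f (j + 1) i) (av f j (2 * i)) ∧
      G j i ≤ C j i + E s (av f (j + 1) i) (av f j (2 * i + 1)))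
    (hL : ∀ x, x < n → ∀ s : S N, Inv K B R0 s → Lw x ≤ (tl x).ES R0 E s (f x)) (j : ℕ) :
    ∀ i, (i + 1) * 2 ^ j ≤ n → ∀ s : S N, Inv K B R0 s →
      dy G j i + ∑ x ∈ Finset.range (2 ^ j), Lw (i * 2 ^ j + x) ≤
        dy C j i + 2 ^ j * (dyP K h f tl j i).ES R0 E s (av f j i) := by
  induction j with
  | zero =>
    intro i hi s hs
    rw [dyP, av_zero]
    simp only [dy, pow_zero, Finset.sum_range_one, mul_one, add_zero, zero_add, one_mul]
    exact hL i (by rw [pow_zero, mul_one] at hi; omega) s hs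
  | succ j ih =>
    intro i hi s hs
    have h1 : (2 * i + 1 + 1) * 2 ^ j ≤ n := by
      refine le_trans (le_of_eq ?_) hi
      ring
    have h2 : (2 * i + 1) * 2 ^ j ≤ n := le_trans (Nat.mul_le_mul_right _ (by omega)) h1
    obtain ⟨a, ha⟩ : ∃ a, a = big K h (av f (j + 1) i) ∪ (big K h (av f j (2 * i)) ∪ big K h (av f j (2 * i + 1))) :=
      ⟨_, rfl⟩
    have has : a ⊆ nds N K := by
      rw [ha]
      exact Finset.union_subset (big_sub _) (Finset.union_subset (big_sub _) (big_sub _))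
    have hyV := av_mem_Vs (N := N) (K := K) hf hi
    have hyB := nr_av_le (K := K) hB hi
    obtain ⟨s', hs'⟩ : ∃ s', s' = s.note R0 (av f (j + 1) i) a := ⟨_, rfl⟩
    have hI : Inv K B R0 s' := by
      rw [hs']
      exact inv_note hs hyV hyB has
    have q0 : QuietL K h R0 s' (av f (j + 1) i) := by
      rw [hs']
      refine quietL_note hs hyV hyB has _ ?_
      rw [ha]
      exact Finset.subset_union_left
    have q1 : QuietL K h R0 s' (av f j (2 * i)) := by
      rw [hs']
      refine quietL_note hs hyV hyB has _ ?_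
      rw [ha]
      exact Finset.subset_union_left.trans Finset.subset_union_right
    have q2 : QuietL K h R0 s' (av f j (2 * i + 1)) := by
      rw [hs']
      refine quietL_note hs hyV hyB has _ ?_
      rw [ha]
      exact Finset.subset_union_right.trans Finset.subset_union_right
    obtain ⟨g1, g2⟩ := hG j i hi s' hI q0 q1 q2
    have i1 := ih (2 * i) h2 s' hI
    have i2 := ih (2 * i + 1) h1 s' hI
    have hES : (dyP K h f tl (j + 1) i).ES R0 E s (av f (j + 1) i) =
        (2 : ℝ)⁻¹ * (E s' (av f (j + 1) i) (av f j (2 * i + 1)) +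
          (dyP K h f tl j (2 * i + 1)).ES R0 E s' (av f j (2 * i + 1))) +
        (2 : ℝ)⁻¹ * (E s' (av f (j + 1) i) (av f j (2 * i)) +
          (dyP K h f tl j (2 * i)).ES R0 E s' (av f j (2 * i))) := by
      rw [dyP, PT.ES, ← ha, ← hs', PT.ES, Fintype.sum_bool]
      simp
    have hsum : ∑ x ∈ Finset.range (2 ^ (j + 1)), Lw (i * 2 ^ (j + 1) + x) =
        ∑ x ∈ Finset.range (2 ^ j), Lw (2 * i * 2 ^ j + x) +
          ∑ x ∈ Finset.range (2 ^ j), Lw ((2 * i + 1) * 2 ^ j + x) := by
      have e1 : 2 ^ (j + 1) = 2 ^ j + 2 ^ j := by ring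
      rw [e1, Finset.sum_range_add]
      congr 1
      · refine Finset.sum_congr rfl fun x _ => ?_
        congr 1
        ring
      · refine Finset.sum_congr rfl fun x _ => ?_
        congr 1
        ring
    have hp : (0 : ℝ) < 2 ^ j := by positivity
    have e2 : (2 : ℝ) ^ (j + 1) = 2 * 2 ^ j := by ring
    rw [hES, hsum]
    simp only [dy]
    rw [e2]
    have k1 := mul_le_mul_of_nonneg_left g1 hp.le
    have k2 := mul_le_mul_of_nonneg_left g2 hp.le
    linarith

end H50RC
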