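import Pool.Agent.H50.RC.A1
import Pool.Agent.H50.RC.Ahu
import Pool.Agent.H50.RC.Afl
import Pool.Agent.H83.RC.Lq

/-!
S05864 [H80 RC GEN] (PART C6 of proofs 322): the general estimate, pointwise version.

A step of a process goes from the value `y` to the value `y'`, in the state `s` (after the note). `eQ` is the universal energy of a step,
`eN` the number of the noisy nodes. `gen_quiet`: `a x ≤ θ a² + θ⁻¹ x²` for every product; the nodes of `M` give `eF`; for the unmarked nodes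
`∑ ‖dy q‖² ≤ eH + eFull` (if `R0 < #core` everything is in `eFull`, otherwise `Quiet` says that both values are `≤ h`, so the term is in `eH`);
the last sum gives `eA`. `gen_noisy`: the same, but if `#core ≤ R0` the unmarked nodes with `h < ‖y' q‖` are not in `core` (`Inv.coreM`: `core ⊆ M`), each contributes at most
`bmax * 2B`, and their number is at most `eN`.
-/

set_option autoImplicit false

namespace H50RC

variable {N K m L R0 : ℕ} {B ε h : ℝ}

/-- universal energy of a step -/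
noncomputable def eQ (K m L : ℕ) (ε h : ℝ) (R0 : ℕ) (θ θ1 θ2 : ℝ) (s : S N) (y y' : Y N) : ℝ :=
  θ⁻¹ * eF K m L ε s y y' + (θ1⁻¹ * (eH K h s y y' + eFull K R0 s y y') + θ2⁻¹ * eA K s y y')

open Classical in
/-- number of the noisy nodes -/
noncomputable def eN (K : ℕ) (h : ℝ) (s : S N) (_ y' : Y N) : ℝ :=
  ((nds N K).filter (fun q => q ∉ s.core ∧ h < ‖y' q‖)).card

/-- the unmarked nodes are small before the jump -/
def QuietL (K : ℕ) (h : ℝ) (R0 : ℕ) (s : S N) (y : Y N) : Prop :=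
  s.core.card ≤ R0 → ∀ q ∈ nds N K, q ∉ s.σ.M → ‖y q‖ ≤ h

theorem eF_nonneg (s : S N) (y y' : Y N) : 0 ≤ eF K m L ε s y y' := Finset.sum_nonneg fun _ _ => sq_nonneg _

theorem eH_nonneg (s : S N) (y y' : Y N) : 0 ≤ eH K h s y y' := by
  unfold eH
  refine Finset.sum_nonneg fun q _ => ?_
  split_ifs
  · positivity
  · exact le_rfl

theorem eA_nonneg (s : S N) (y y' : Y N) : 0 ≤ eA K s y y' := Finset.sum_nonneg fun _ _ => sq_nonneg _

theorem eFull_nonneg (s : S N) (y y' : Y N) : 0 ≤ eFull K R0 s y y' := by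
  unfold eFull
  split_ifs
  · exact Finset.sum_nonneg fun _ _ => sq_nonneg _
  · exact le_rfl

theorem eN_nonneg (s : S N) (y y' : Y N) : 0 ≤ eN K h s y y' := Nat.cast_nonneg _

theorem eQ_nonneg {θ θ1 θ2 : ℝ} (hθ : 0 < θ) (hθ1 : 0 < θ1) (hθ2 : 0 < θ2) (s : S N) (y y' : Y N) :
    0 ≤ eQ K m L ε h R0 θ θ1 θ2 s y y' := by
  unfold eQ
  have h1 := eF_nonneg (K := K) (m := m) (L := L) (ε := ε) s y y'
  have h2 := eH_nonneg (K := K) (h := h) s y y'
  have h3 := eFull_nonneg (K := K) (R0 := R0) s y y'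
  have h4 := eA_nonneg (K := K) s y y'
  positivity

private theorem young {θ : ℝ} (hθ : 0 < θ) (a x : ℝ) : a * x ≤ θ * a ^ 2 + θ⁻¹ * x ^ 2 := by
  have h1 : 0 ≤ (θ * a - x) ^ 2 := sq_nonneg _
  have h2 : 0 ≤ θ⁻¹ * ((θ * a - x) ^ 2 + θ ^ 2 * a ^ 2 + x ^ 2) := by positivity
  have h3 : θ⁻¹ * ((θ * a - x) ^ 2 + θ ^ 2 * a ^ 2 + x ^ 2) = 2 * (θ * a ^ 2 + θ⁻¹ * x ^ 2 - a * x) := by
    field_simp
    ring
  linarith

private theorem young_sum {θ : ℝ} (hθ : 0 < θ) {ι : Type} (s : Finset ι) (a x : ι → ℝ) :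
    ∑ i ∈ s, a i * x i ≤ θ * ∑ i ∈ s, a i ^ 2 + θ⁻¹ * ∑ i ∈ s, x i ^ 2 := by
  rw [Finset.mul_sum, Finset.mul_sum, ← Finset.sum_add_distrib]
  exact Finset.sum_le_sum fun i _ => young hθ _ _

private theorem unm_le (s : S N) {y y' : Y N} (A : Finset (Nd N)) (hA : A ⊆ nds N K)
    (hq : s.core.card ≤ R0 → ∀ q ∈ A, ‖y q‖ ≤ h ∧ ‖y' q‖ ≤ h) :
    ∑ q ∈ A, ‖(y' - y) q‖ ^ 2 ≤ eH K h s y y' + eFull K R0 s y y' := by
  have h1 := eH_nonneg (K := K) (h := h) s y y'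
  have h2 := eFull_nonneg (K := K) (R0 := R0) s y y'
  rcases lt_or_ge R0 s.core.card with hc | hc
  · have h3 : ∑ q ∈ A, ‖(y' - y) q‖ ^ 2 ≤ eFull K R0 s y y' := by
      unfold eFull
      rw [if_pos hc]
      exact Finset.sum_le_sum_of_subset_of_nonneg (hA.trans (Finset.subset_insert _ _))
        fun _ _ _ => sq_nonneg _
    linarith
  · have h3 : ∑ q ∈ A, ‖(y' - y) q‖ ^ 2 ≤ eH K h s y y' := by
      unfold eH
      refine le_trans (Finset.sum_le_sum (f := fun q => ‖(y' - y) q‖ ^ 2)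
        (g := fun q => if ‖y q‖ ≤ h ∧ ‖y' q‖ ≤ h then ‖y' q - y q‖ ^ 2 else 0) fun q hqA => ?_)
        (Finset.sum_le_sum_of_subset_of_nonneg hA fun q _ _ => ?_)
      · rw [if_pos (hq hc q hqA)]
        exact le_rfl
      · split_ifs
        · positivity
        · exact le_rfl
    linarith

/-- general estimate of one step, quiet case -/
theorem gen_quiet {θ θ1 θ2 : ℝ} (hθ : 0 < θ) (hθ1 : 0 < θ1) (hθ2 : 0 < θ2) {s : S N} {y y' : Y N}
    (hq : QuietL K h R0 s y) (hq' : QuietL K h R0 s y') (β b b' : Nd N → ℝ) {T : ℝ}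
    (hT : |T| ≤ ∑ p ∈ (nds N K).filter (fun p => p ∈ s.σ.M), β p * |FF K m L ε s.σ.M s.σ.v p (y' - y)| +
      ∑ q ∈ (nds N K).filter (fun q => q ∉ s.σ.M), b q * ‖(y' - y) q‖ +
      ∑ q ∈ insert [] (nds N K), b' q * ‖(y' - y) q‖) :
    |T| ≤ θ * ∑ q ∈ nds N K, β q ^ 2 + θ1 * ∑ q ∈ nds N K, b q ^ 2 + θ2 * ∑ q ∈ insert [] (nds N K), b' q ^ 2 +
      eQ K m L ε h R0 θ θ1 θ2 s y y' := by
  have h1 := young_sum hθ ((nds N K).filter (fun p => p ∈ s.σ.M)) β
    (fun p => |FF K m L ε s.σ.M s.σ.v p (y' - y)|)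
  have h2 := young_sum hθ1 ((nds N K).filter (fun q => q ∉ s.σ.M)) b (fun q => ‖(y' - y) q‖)
  have h3 := young_sum hθ2 (insert [] (nds N K)) b' (fun q => ‖(y' - y) q‖)
  have h4 : ∑ p ∈ (nds N K).filter (fun p => p ∈ s.σ.M), β p ^ 2 ≤ ∑ q ∈ nds N K, β q ^ 2 :=
    Finset.sum_le_sum_of_subset_of_nonneg (Finset.filter_subset _ _) fun _ _ _ => sq_nonneg _
  have h5 : ∑ p ∈ (nds N K).filter (fun q => q ∉ s.σ.M), b p ^ 2 ≤ ∑ q ∈ nds N K, b q ^ 2 :=
    Finset.sum_le_sum_of_subset_of_nonneg (Finset.filter_subset _ _) fun _ _ _ => sq_nonneg _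
  have h6 := unm_le (R0 := R0) (h := h) s (y := y) (y' := y') ((nds N K).filter (fun q => q ∉ s.σ.M))
    (Finset.filter_subset _ _) (fun hc q hqA => ⟨hq hc q (Finset.mem_filter.1 hqA).1 (Finset.mem_filter.1 hqA).2,
      hq' hc q (Finset.mem_filter.1 hqA).1 (Finset.mem_filter.1 hqA).2⟩)
  have h7 : ∑ p ∈ (nds N K).filter (fun p => p ∈ s.σ.M), |FF K m L ε s.σ.M s.σ.v p (y' - y)| ^ 2 =
      eF K m L ε s y y' := by
    unfold eF
    exact Finset.sum_congr rfl fun p _ => sq_abs _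
  have h8 : ∑ q ∈ insert [] (nds N K), ‖(y' - y) q‖ ^ 2 = eA K s y y' := rfl
  have h9 := mul_le_mul_of_nonneg_left h4 hθ.le
  have h10 := mul_le_mul_of_nonneg_left h5 hθ1.le
  have h11 := mul_le_mul_of_nonneg_left h6 (inv_pos.2 hθ1).le
  rw [h7] at h1
  rw [h8] at h3
  unfold eQ
  linarith

/-- general estimate of one step, noisy case -/
theorem gen_noisy {θ θ1 θ2 bmax : ℝ} (hθ : 0 < θ) (hθ1 : 0 < θ1) (hθ2 : 0 < θ2) {s : S N}
    (hs : Inv K B R0 s) {y y' : Y N} (hy : nr K y ≤ B) (hyV : y ∈ Vs N K) (hy' : nr K y' ≤ B) (hyV' : y' ∈ Vs N K)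
    (hq : QuietL K h R0 s y) (β b b' : Nd N → ℝ) (hbm : ∀ q ∈ nds N K, b q ≤ bmax)
    (hbm0 : 0 ≤ bmax) {T : ℝ}
    (hT : |T| ≤ ∑ p ∈ (nds N K).filter (fun p => p ∈ s.σ.M), β p * |FF K m L ε s.σ.M s.σ.v p (y' - y)| +
      ∑ q ∈ (nds N K).filter (fun q => q ∉ s.σ.M), b q * ‖(y' - y) q‖ +
      ∑ q ∈ insert [] (nds N K), b' q * ‖(y' - y) q‖) :
    |T| ≤ θ * ∑ q ∈ nds N K, β q ^ 2 + θ1 * ∑ q ∈ nds N K, b q ^ 2 + θ2 * ∑ q ∈ insert [] (nds N K), b' q ^ 2 +
      (eQ K m L ε h R0 θ θ1 θ2 s y y' + bmax * (2 * B) * eN K h s y y') := by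
  classical
  have h1 := young_sum hθ ((nds N K).filter (fun p => p ∈ s.σ.M)) β
    (fun p => |FF K m L ε s.σ.M s.σ.v p (y' - y)|)
  have h3 := young_sum hθ2 (insert [] (nds N K)) b' (fun q => ‖(y' - y) q‖)
  have h4 : ∑ p ∈ (nds N K).filter (fun p => p ∈ s.σ.M), β p ^ 2 ≤ ∑ q ∈ nds N K, β q ^ 2 :=
    Finset.sum_le_sum_of_subset_of_nonneg (Finset.filter_subset _ _) fun _ _ _ => sq_nonneg _
  have h7 : ∑ p ∈ (nds N K).filter (fun p => p ∈ s.σ.M), |FF K m L ε s.σ.M s.σ.v p (y' - y)| ^ 2 =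
      eF K m L ε s y y' := by
    unfold eF
    exact Finset.sum_congr rfl fun p _ => sq_abs _
  have h8 : ∑ q ∈ insert [] (nds N K), ‖(y' - y) q‖ ^ 2 = eA K s y y' := rfl
  have hB0 : 0 ≤ B := (nr_nonneg y).trans hy
  have hN0 := eN_nonneg (K := K) (h := h) s y y'
  have hN : 0 ≤ bmax * (2 * B) * eN K h s y y' := by positivity
  have hmid : ∑ q ∈ (nds N K).filter (fun q => q ∉ s.σ.M), b q * ‖(y' - y) q‖ ≤
      θ1 * ∑ q ∈ nds N K, b q ^ 2 + θ1⁻¹ * (eH K h s y y' + eFull K R0 s y y') +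
        bmax * (2 * B) * eN K h s y y' := by
    rcases lt_or_ge R0 s.core.card with hc | hc
    · have h2 := young_sum hθ1 ((nds N K).filter (fun q => q ∉ s.σ.M)) b (fun q => ‖(y' - y) q‖)
      have h5 : ∑ p ∈ (nds N K).filter (fun q => q ∉ s.σ.M), b p ^ 2 ≤ ∑ q ∈ nds N K, b q ^ 2 :=
        Finset.sum_le_sum_of_subset_of_nonneg (Finset.filter_subset _ _) fun _ _ _ => sq_nonneg _
      have h6 := unm_le (R0 := R0) (h := h) s (y := y) (y' := y') ((nds N K).filter (fun q => q ∉ s.σ.M))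
        (Finset.filter_subset _ _) (fun hc' => absurd hc' (not_le.2 hc))
      have h10 := mul_le_mul_of_nonneg_left h5 hθ1.le
      have h11 := mul_le_mul_of_nonneg_left h6 (inv_pos.2 hθ1).le
      linarith
    · obtain ⟨A, hA⟩ : ∃ A, A = ((nds N K).filter (fun q => q ∉ s.σ.M)).filter (fun q => ‖y' q‖ ≤ h) := ⟨_, rfl⟩
      obtain ⟨A', hA'⟩ : ∃ A', A' = ((nds N K).filter (fun q => q ∉ s.σ.M)).filter (fun q => ¬ ‖y' q‖ ≤ h) :=
        ⟨_, rfl⟩
      have hsplit : ∑ q ∈ (nds N K).filter (fun q => q ∉ s.σ.M), b q * ‖(y' - y) q‖ =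
          ∑ q ∈ A, b q * ‖(y' - y) q‖ + ∑ q ∈ A', b q * ‖(y' - y) q‖ := by
        rw [hA, hA']
        exact (Finset.sum_filter_add_sum_filter_not _ _ _).symm
      have hAs : A ⊆ nds N K := by
        rw [hA]
        exact (Finset.filter_subset _ _).trans (Finset.filter_subset _ _)
      have hAs' : A' ⊆ nds N K := by
        rw [hA']
        exact (Finset.filter_subset _ _).trans (Finset.filter_subset _ _)
      have h2 := young_sum hθ1 A b (fun q => ‖(y' - y) q‖)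
      have h5 : ∑ p ∈ A, b p ^ 2 ≤ ∑ q ∈ nds N K, b q ^ 2 :=
        Finset.sum_le_sum_of_subset_of_nonneg hAs fun _ _ _ => sq_nonneg _
      have h6 := unm_le (R0 := R0) (h := h) s (y := y) (y' := y') A hAs (fun _ q hqA => by
        rw [hA, Finset.mem_filter, Finset.mem_filter] at hqA
        exact ⟨hq hc q hqA.1.1 hqA.1.2, hqA.2⟩)
      have h10 := mul_le_mul_of_nonneg_left h5 hθ1.le
      have h11 := mul_le_mul_of_nonneg_left h6 (inv_pos.2 hθ1).le
      have h12 : ∑ q ∈ A', b q * ‖(y' - y) q‖ ≤ A'.card * (bmax * (2 * B)) := by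
        rw [← nsmul_eq_mul]
        refine Finset.sum_le_card_nsmul _ _ _ fun q hqA => ?_
        have hqn := hAs' hqA
        have e1 : ‖(y' - y) q‖ ≤ 2 * B := by
          have e2 : (y' - y) q = y' q - y q := rfl
          have e3 : ‖y q‖ ≤ B := (norm_le_nr hyV (mem_nds.1 hqn).2).trans hy
          have e4 : ‖y' q‖ ≤ B := (norm_le_nr hyV' (mem_nds.1 hqn).2).trans hy'
          rw [e2]
          refine (norm_sub_le _ _).trans ?_
          linarith
        exact mul_le_mul (hbm q hqn) e1 (norm_nonneg _) hbm0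
      have h13 : (A'.card : ℝ) ≤ eN K h s y y' := by
        unfold eN
        refine Nat.cast_le.2 (Finset.card_le_card fun q hqA => ?_)
        rw [hA', Finset.mem_filter, Finset.mem_filter] at hqA
        rw [Finset.mem_filter]
        refine ⟨hqA.1.1, fun hqc => hqA.1.2 (hs.coreM hc hqc), not_le.1 hqA.2⟩
      have h14 : (A'.card : ℝ) * (bmax * (2 * B)) ≤ bmax * (2 * B) * eN K h s y y' := by
        rw [mul_comm]
        exact mul_le_mul_of_nonneg_left h13 (by positivity)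
      linarith
  have h9 := mul_le_mul_of_nonneg_left h4 hθ.le
  rw [h7] at h1
  rw [h8] at h3
  unfold eQ
  linarith

end H50RC
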