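import Pool.Agent.H80.RC.Gen

/-!
S05864 [H80 RC IES] (PART C6 of proofs 322): the integrated energies.

`Ns h b t y`: in the process `t` every value after a jump is followed by a note which contains all `q ∈ nds` with `h < ‖y q‖`; `b = true`: also `t` itself starts with such a note
(for its value `y`). `ES_eN_le`: induction on `t`, for `b = false` and `true` at the same time: claim `#core s + ES eN t s y ≤ EX #core t s y` for `Ns false`, and
`#(core s ∪ big) + ES eN t s y ≤ EX #core t s y` for `Ns true`. Jump: `eN s y (y' i) = #{q ∈ nds, q ∉ core, h < ‖y' i q‖}` and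
`#core + eN ≤ #(core ∪ big (y' i))` (disjoint union). `ES_eQ_le`: `ES_add`, `ES_mul`, (A2), (A4), (A5) with the bound of `ES eF` as hypothesis.
-/

set_option autoImplicit false

namespace H50RC

variable {N K m L R0 : ℕ} {B ε h : ℝ}

open Classical in
/-- the large nodes of `y` -/
noncomputable def big (K : ℕ) {N : ℕ} (h : ℝ) (y : Y N) : Finset (Nd N) := (nds N K).filter (fun q => h < ‖y q‖)

theorem mem_big {y : Y N} {q : Nd N} : q ∈ big K h y ↔ q ∈ nds N K ∧ h < ‖y q‖ := by
  unfold big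
  rw [Finset.mem_filter]

theorem big_sub (y : Y N) : big K h y ⊆ nds N K := fun _ hq => (mem_big.1 hq).1

/-- after a note containing the large nodes the unmarked nodes are small -/
theorem quietL_note {s : S N} (hs : Inv K B R0 s) {y : Y N} (hy : y ∈ Vs N K) (hB : nr K y ≤ B)
    {a : Finset (Nd N)} (ha : a ⊆ nds N K) (z : Y N) (hz : big K h z ⊆ a) :
    QuietL K h R0 (s.note R0 y a) z := by
  intro hc q hq hqM
  by_contra hcon
  have h1 : q ∈ a := hz (mem_big.2 ⟨hq, not_le.1 hcon⟩)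
  have h2 := (inv_note hs hy hB ha).coreM hc
  have h3 : (s.note R0 y a).core = s.core ∪ a := rfl
  rw [h3] at h2
  exact hqM (h2 (Finset.mem_union_right _ h1))

/-- the notes after the jumps contain the large nodes -/
def Ns (K : ℕ) {N : ℕ} (h : ℝ) : Bool → PT N → Y N → Prop
  | false, .nil, _ => True
  | true, .nil, _ => False
  | false, .note _ t, y => Ns K h false t y
  | true, .note a t, y => big K h y ⊆ a ∧ Ns K h false t y
  | false, .jump _ _ _ y' t, _ => ∀ i, Ns K h true (t i) (y' i)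
  | true, .jump _ _ _ _ _, _ => False

private theorem card_eN (s : S N) (y y' : Y N) :
    (s.core.card : ℝ) + eN K h s y y' ≤ ((s.core ∪ big K h y').card : ℝ) := by
  classical
  unfold eN
  rw [← Nat.cast_add]
  refine Nat.cast_le.2 ?_
  have h1 : Disjoint s.core ((nds N K).filter (fun q => q ∉ s.core ∧ h < ‖y' q‖)) := by
    rw [Finset.disjoint_left]
    intro q hq hq'
    exact (Finset.mem_filter.1 hq').2.1 hq
  rw [← Finset.card_union_of_disjoint h1]
  refine Finset.card_le_card fun q hq => ?_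
  rcases Finset.mem_union.1 hq with hq | hq
  · exact Finset.mem_union_left _ hq
  · exact Finset.mem_union_right _ (mem_big.2 ⟨(Finset.mem_filter.1 hq).1, (Finset.mem_filter.1 hq).2.2⟩)

private theorem ES_eN_aux (t : PT N) : ∀ y : Y N, t.WFP K B y →
    (Ns K h false t y → ∀ s : S N, (s.core.card : ℝ) + t.ES R0 (eN K h) s y ≤ t.EX R0 fCore s y) ∧
    (Ns K h true t y → ∀ s : S N, ((s.core ∪ big K h y).card : ℝ) + t.ES R0 (eN K h) s y ≤ t.EX R0 fCore s y) := by
  induction t with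
  | nil =>
    intro y _
    refine ⟨fun _ s => ?_, fun hc => absurd hc (by simp [Ns])⟩
    simp only [PT.ES, PT.EX, fCore, add_zero]
    exact le_rfl
  | note a t ih =>
    intro y hy
    have hy' : a ⊆ nds N K ∧ t.WFP K B y := hy
    refine ⟨fun hn s => ?_, fun hn s => ?_⟩
    · have hn' : Ns K h false t y := by simpa only [Ns] using hn
      have h1 := (ih y hy'.2).1 hn' (s.note R0 y a)
      have h2 : (s.core.card : ℝ) ≤ ((s.note R0 y a).core.card : ℝ) :=
        Nat.cast_le.2 (Finset.card_le_card (Finset.subset_union_left))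
      simp only [PT.ES, PT.EX]
      linarith
    · have hn' : big K h y ⊆ a ∧ Ns K h false t y := by simpa only [Ns] using hn
      have h1 := (ih y hy'.2).1 hn'.2 (s.note R0 y a)
      have h2 : ((s.core ∪ big K h y).card : ℝ) ≤ ((s.note R0 y a).core.card : ℝ) :=
        Nat.cast_le.2 (Finset.card_le_card (Finset.union_subset_union_right hn'.1))
      simp only [PT.ES, PT.EX]
      linarith
  | jump ι hι p y' t ih =>
    intro y hy
    have hy' : Jmp K B y p y' ∧ ∀ i, (t i).WFP K B (y' i) := hy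
    refine ⟨fun hn s => ?_, fun hc => absurd hc (by simp [Ns])⟩
    have hn' : ∀ i, Ns K h true (t i) (y' i) := by simpa only [Ns] using hn
    simp only [PT.ES, PT.EX]
    have h1 : (s.core.card : ℝ) = ∑ i, p i * (s.core.card : ℝ) := by
      rw [← Finset.sum_mul, hy'.1.one, one_mul]
    rw [h1, ← Finset.sum_add_distrib]
    refine Finset.sum_le_sum fun i _ => ?_
    rw [← mul_add]
    refine mul_le_mul_of_nonneg_left ?_ (hy'.1.nn i)
    have h2 := (ih i (y' i) (hy'.2 i)).2 (hn' i) s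
    have h3 := card_eN (K := K) (h := h) s y (y' i)
    linarith

theorem ES_eN_le (t : PT N) (y : Y N) (hy : t.WFP K B y) (ht : Ns K h false t y) (s : S N) :
    (s.core.card : ℝ) + t.ES R0 (eN K h) s y ≤ t.EX R0 fCore s y :=
  (ES_eN_aux t y hy).1 ht s

theorem ES_eN_init (hB : 0 ≤ B) {g : ℝ} (hg0 : 0 < g) (t : PT N) (y : Y N) (ht : t.WFP K B y) (hn : Ns K h false t y)
    (hg : t.Thr g y) (hy : y ∈ Vs N K) (hyB : nr K y ≤ B) :
    t.ES R0 (eN K h) (S.init N) y ≤ K * B / g := by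
  have h1 := ES_eN_le (R0 := R0) t y ht hn (S.init N)
  have h2 := A3 (R0 := R0) hB t y ht hg hy hyB
  have h3 : ((S.init N).core.card : ℝ) = 0 := by simp [S.init]
  rw [h3, zero_add] at h1
  rw [le_div_iff₀ hg0, mul_comm]
  exact (mul_le_mul_of_nonneg_left h1 hg0.le).trans h2

theorem ES_eQ_le (hB : 0 ≤ B) (hh : 0 ≤ h) {θ θ1 θ2 : ℝ} (hθ : 0 < θ) (hθ1 : 0 < θ1) (hθ2 : 0 < θ2) (hR : 0 < R0)
    {g : ℝ} (hg0 : 0 < g) (t : PT N) (y : Y N) (ht : t.WFP K B y)
    (hg : t.Thr g y) (hy : y ∈ Vs N K) (hyB : nr K y ≤ B) {X : ℝ} (hX : t.ES R0 (eF K m L ε) (S.init N) y ≤ X) :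
    t.ES R0 (eQ K m L ε h R0 θ θ1 θ2) (S.init N) y ≤
      θ⁻¹ * X + (θ1⁻¹ * (2 * h * (K * B) + (K + 1) * B ^ 2 * (K * B / (g * R0))) + θ2⁻¹ * ((K + 1) * B ^ 2)) := by
  have h2 := A2 (R0 := R0) (K := K) hh t (S.init N) y ht inv_init hy hyB
  have h4 := A4 (R0 := R0) hB hR hg0 t y ht hg hy hyB
  have h5 := A5 (R0 := R0) hB t (S.init N) y ht inv_init hy hyB
  have e1 : t.ES R0 (eQ K m L ε h R0 θ θ1 θ2) (S.init N) y =
      θ⁻¹ * t.ES R0 (eF K m L ε) (S.init N) y + (θ1⁻¹ * (t.ES R0 (eH K h) (S.init N) y +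
        t.ES R0 (eFull K R0) (S.init N) y) + θ2⁻¹ * t.ES R0 (eA K) (S.init N) y) := by
    have a1 := ES_add (R0 := R0) (fun s y y' => θ⁻¹ * eF K m L ε s y y')
      (fun s y y' => θ1⁻¹ * (eH K h s y y' + eFull K R0 s y y') + θ2⁻¹ * eA K s y y') t (S.init N) y
    have a2 := ES_add (R0 := R0) (fun s y y' => θ1⁻¹ * (eH K h s y y' + eFull K R0 s y y'))
      (fun s y y' => θ2⁻¹ * eA K s y y') t (S.init N) y
    have a3 := ES_mul (R0 := R0) θ⁻¹ (eF K m L ε) t (S.init N) y
    have a4 := ES_mul (R0 := R0) θ1⁻¹ (fun s y y' => eH K h s y y' + eFull K R0 s y y') t (S.init N) y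
    have a5 := ES_mul (R0 := R0) θ2⁻¹ (eA K) t (S.init N) y
    have a6 := ES_add (R0 := R0) (eH K h) (eFull K R0) t (S.init N) y
    rw [a3, a2, a4, a5, a6] at a1
    exact a1
  rw [e1]
  have b1 := mul_le_mul_of_nonneg_left hX (inv_pos.2 hθ).le
  have b2 := mul_le_mul_of_nonneg_left (add_le_add h2 h4) (inv_pos.2 hθ1).le
  have b3 := mul_le_mul_of_nonneg_left h5 (inv_pos.2 hθ2).le
  linarith

end H50RC
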