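import Pool.Agent.H80.RC.Wcl

/-!
S05864 [H80 RC P1R] (PART C6 of proofs 322): the process PT1 of a phase: it is well formed, satisfies the threshold condition for `g ≤ h/2`, and the recursion.
Induction on the phase tree. The tail at a non-exit `x` is the jump to the two sides with the probabilities `w_c(x)` (`y3_mean`/`ph_eq`), then the process of the child
(`child`). In `P1_rec` the lower bound of the tail is `Lw x = ∑_c w_c (W_(x,c))⁻¹ (sum X - sum C)(child)`, so that `Wx Lw x = ∑_c (sum X - sum C)(child)`.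
-/

set_option autoImplicit false

namespace H50RC

variable {N K m R0 : ℕ} {h : ℝ}

theorem P1_WFP (t : PTr N) : t.OK K m → 0 < t.W → (P1 K h t).WFP K 4 t.nv := by
  induction t with
  | leaf lv W ν y =>
    intro _ _
    rw [P1]
    trivial
  | node D sub ih =>
    intro hOK hW
    have hD : D.OK K m := hOK.1
    have hW' : 0 < D.W := hW
    rw [P1, nv_node, Wd.yQ_eq]
    refine dyP_WFP (fun x hx => Wd.ph_mem hD hx) (fun x hx => Wd.nr_ph_le hD hW' hx) (fun x hx => ?_) D.d 0 (by omega)
    split_ifs with hex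
    · trivial
    · have hne : x ∈ D.ne := Wd.mem_ne.2 ⟨hx, hex⟩
      refine ⟨⟨fun c => hD.w_nonneg x c, ?_, ?_, fun c => Wd.phc_mem hD hx c, fun c => Wd.nr_phc_le hD hW' hne c⟩,
        fun c => ?_⟩
      · rw [Fintype.sum_bool, add_comm]
        exact hD.w_sum x
      · rw [Fintype.sum_bool, add_comm]
        exact (Wd.ph_eq hD hW' hne).symm
      · beta_reduce
        split_ifs with hc
        · trivial
        · obtain ⟨c1, c2, c3, c4, c5⟩ := child hOK hW' hne hc
          have := ih x c c1 c3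
          rwa [c5] at this

theorem P1_Thr (hh : 0 ≤ h) {g : ℝ} (hg : 2 * g ≤ h) (t : PTr N) : t.OK K m → 0 < t.W →
    (P1 K h t).Thr g t.nv := by
  induction t with
  | leaf lv W ν y =>
    intro _ _
    rw [P1]
    trivial
  | node D sub ih =>
    intro hOK hW
    have hD : D.OK K m := hOK.1
    have hW' : 0 < D.W := hW
    rw [P1, nv_node, Wd.yQ_eq]
    refine dyP_Thr (n := 2 ^ D.d) hh hg (fun x hx => ?_) D.d 0 (by omega)
    split_ifs with hex
    · trivial
    · have hne : x ∈ D.ne := Wd.mem_ne.2 ⟨hx, hex⟩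
      intro c
      beta_reduce
      split_ifs with hc
      · trivial
      · obtain ⟨c1, c2, c3, c4, c5⟩ := child hOK hW' hne hc
        have := ih x c c1 c3
        rwa [c5] at this

theorem P1_rec {E : S N → Y N → Y N → ℝ} {G C : Wd N → ℕ → ℕ → ℝ} (hE : ∀ s y y', 0 ≤ E s y y')
    (hG : ∀ D : Wd N, D.OK K m → 0 < D.W → ∀ j i, (i + 1) * 2 ^ (j + 1) ≤ 2 ^ D.d →
      ∀ s : S N, Inv K 4 R0 s → QuietL K h R0 s (av D.ph (j + 1) i) →
      QuietL K h R0 s (av D.ph j (2 * i)) → QuietL K h R0 s (av D.ph j (2 * i + 1)) →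
      G D j i ≤ C D j i + E s (av D.ph (j + 1) i) (av D.ph j (2 * i)) ∧
      G D j i ≤ C D j i + E s (av D.ph (j + 1) i) (av D.ph j (2 * i + 1))) (t : PTr N) :
    t.OK K m → 0 < t.W → ∀ s : S N, Inv K 4 R0 s →
      t.sum (fun D => D.Wx * dy (G D) D.d 0) ≤
        t.sum (fun D => D.Wx * dy (C D) D.d 0) + t.W * (P1 K h t).ES R0 E s t.nv := by
  classical
  induction t with
  | leaf lv W ν y =>
    intro _ _ s _
    rw [P1]
    simp [PTr.sum, PT.ES]
  | node D sub ih =>
    intro hOK hW s hs
    have hD : D.OK K m := hOK.1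
    have hW' : 0 < D.W := hW
    have hWx := Wd.Wx_pos hW'
    obtain ⟨X, hX⟩ : ∃ X : Wd N → ℝ, X = fun D => D.Wx * dy (G D) D.d 0 := ⟨_, rfl⟩
    obtain ⟨Y', hY⟩ : ∃ Y' : Wd N → ℝ, Y' = fun D => D.Wx * dy (C D) D.d 0 := ⟨_, rfl⟩
    rw [← hX, ← hY] at ih ⊢
    obtain ⟨ch, hch⟩ : ∃ ch : ℕ → Bool → ℝ, ch = fun x c =>
      if D.w x c = 0 then 0 else (sub x c).sum X - (sub x c).sum Y' := ⟨_, rfl⟩
    obtain ⟨Lw, hLw⟩ : ∃ Lw : ℕ → ℝ, Lw = fun x => if x ∈ D.ex then 0 else D.Wx⁻¹ * (ch x false + ch x true) :=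
      ⟨_, rfl⟩
    have hchle : ∀ x, x ∈ D.ne → ∀ c, ∀ s : S N, Inv K 4 R0 s → ch x c ≤ D.Wx * (D.w x c *
        (E s (D.ph x) (D.phc x c) + (if D.w x c = 0 then PT.nil else P1 K h (sub x c)).ES R0 E s (D.phc x c))) := by
      intro x hx c s hs
      rw [hch]
      simp only
      split_ifs with hc
      · rw [hc]
        simp
      · obtain ⟨c1, c2, c3, c4, c5⟩ := child hOK hW' hx hc
        have h1 := ih x c c1 c3 s hs
        rw [c5, c4] at h1
        have h2 : 0 ≤ D.Wx * (D.w x c * E s (D.ph x) (D.phc x c)) :=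
          mul_nonneg hWx.le (mul_nonneg (hD.w_nonneg x c) (hE _ _ _))
        linarith
    have hmain := dyP_est (R0 := R0) (h := h) (E := E) (G := G D) (C := C D) (Lw := Lw) (f := D.ph)
      (tl := fun x => if x ∈ D.ex then PT.nil else
        .jump Bool inferInstance (fun c => D.w x c) (fun c => D.phc x c)
        (fun c => if D.w x c = 0 then PT.nil else P1 K h (sub x c))) (n := 2 ^ D.d)
      (fun x hx => Wd.ph_mem hD hx) (fun x hx => Wd.nr_ph_le hD hW' hx)
      (fun j i hi s hs => hG D hD hW' j i hi s hs)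
      (fun x hx s hs => by
        rw [hLw]
        simp only
        by_cases hex : x ∈ D.ex
        · rw [if_pos hex, if_pos hex]
          simp [PT.ES]
        · rw [if_neg hex, if_neg hex, PT.ES, Fintype.sum_bool, inv_mul_le_iff₀ hWx]
          have h1 := hchle x (Wd.mem_ne.2 ⟨hx, hex⟩) false s hs
          have h2 := hchle x (Wd.mem_ne.2 ⟨hx, hex⟩) true s hs
          linarith) D.d 0 (by omega) s hs
    have hP : (P1 K h (PTr.node D sub)).ES R0 E s (PTr.node D sub).nv =
        (dyP K h D.ph (fun x => if x ∈ D.ex then PT.nil else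
        .jump Bool inferInstance (fun c => D.w x c) (fun c => D.phc x c)
        (fun c => if D.w x c = 0 then PT.nil else P1 K h (sub x c))) D.d 0).ES R0 E s (av D.ph D.d 0) := by
      rw [nv_node, Wd.yQ_eq, P1]
    have hsum : D.Wx * ∑ x ∈ Finset.range (2 ^ D.d), Lw (0 * 2 ^ D.d + x) =
        ∑ x ∈ D.ne, (ch x false + ch x true) := by
      have e1 : ∑ x ∈ Finset.range (2 ^ D.d), Lw (0 * 2 ^ D.d + x) =
          ∑ x ∈ D.ne, D.Wx⁻¹ * (ch x false + ch x true) := by
        unfold Wd.ne
        rw [← Finset.sum_sdiff hD.ex_sub]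
        have e2 : ∑ x ∈ D.ex, Lw (0 * 2 ^ D.d + x) = 0 := by
          refine Finset.sum_eq_zero fun x hx => ?_
          rw [zero_mul, zero_add, hLw]
          simp only
          rw [if_pos hx]
        rw [e2, add_zero]
        refine Finset.sum_congr rfl fun x hx => ?_
        rw [zero_mul, zero_add, hLw]
        simp only
        rw [if_neg (Finset.mem_sdiff.1 hx).2]
      rw [e1, ← Finset.mul_sum, ← mul_assoc, mul_inv_cancel₀ hWx.ne', one_mul]
    have hsumX : (PTr.node D sub).sum X - (PTr.node D sub).sum Y' = X D - Y' D + ∑ x ∈ D.ne, (ch x false + ch x true) := by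
      rw [PTr.sum_node, PTr.sum_node]
      have e3 : ∀ x, ch x false + ch x true =
          ((if D.w x false = 0 then 0 else (sub x false).sum X) + (if D.w x true = 0 then 0 else (sub x true).sum X)) -
          ((if D.w x false = 0 then 0 else (sub x false).sum Y') +
            (if D.w x true = 0 then 0 else (sub x true).sum Y')) := by
        intro x
        rw [hch]
        simp only
        split_ifs <;> ring
      simp only [e3, Finset.sum_sub_distrib]
      ring
    have hXD : X D = D.Wx * dy (G D) D.d 0 := by rw [hX]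
    have hYD : Y' D = D.Wx * dy (C D) D.d 0 := by rw [hY]
    have hWt : (PTr.node D sub).W = 2 ^ D.d * D.Wx := (Wd.sum_Wx D).symm
    rw [hP, hWt]
    have k1 := mul_le_mul_of_nonneg_left hmain hWx.le
    rw [mul_add, hsum] at k1
    linarith

end H50RC
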