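import Pool.Agent.H80.RC.P3r

/-!
S05864 [H80 RC P2R] (PART C6 of proofs 322): the process PT2 of a phase: well formed, threshold `3 2^J g ≤ h`, and the recursion. Induction on the phase tree.
-/

set_option autoImplicit false

namespace H50RC

variable {N K m R0 J : ℕ} {h : ℝ}

namespace Wd

variable {D : Wd N}

theorem mem_Iv {a x : ℕ} : x ∈ D.Iv J a ↔ x ∈ D.ne ∧ st J D.w x = a := by
  unfold Iv
  rw [Finset.mem_filter]

/-- sums over all the intervals -/
theorem sum_Iv {E : Type} [AddCommMonoid E] (F : ℕ → ℕ → E) :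
    ∑ a ∈ Finset.range (2 ^ D.d), ∑ x ∈ D.Iv J a, F a x = ∑ x ∈ D.ne, F (st J D.w x) x := by
  have h1 : ∀ x ∈ D.ne, st J D.w x ∈ Finset.range (2 ^ D.d) := fun x hx =>
    Finset.mem_range.2 (lt_of_le_of_lt (st_le x) (mem_ne.1 hx).1)
  rw [← Finset.sum_fiberwise_of_maps_to h1]
  refine Finset.sum_congr rfl fun a _ => ?_
  unfold Iv
  refine Finset.sum_congr rfl fun x hx => ?_
  rw [(Finset.mem_filter.1 hx).2]

theorem wI_nonneg (hD : D.OK K m) (a : ℕ) : 0 ≤ D.wI J a := Finset.sum_nonneg fun x _ => hD.w_nonneg x _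

theorem sd_of_mem {a x : ℕ} (hx : x ∈ D.Iv J a) : sid D.w a = sd J D.w x := by
  unfold sd
  rw [(mem_Iv.1 hx).2]

theorem sum_wI : ∑ a ∈ Finset.range (2 ^ D.d), D.wI J a = ∑ x ∈ D.ne, D.w x (sd J D.w x) := by
  unfold wI
  rw [sum_Iv (fun a x => D.w x (sid D.w a))]
  rfl

/-- the probabilities inside an interval are at least `1/(3 2^J)` -/
theorem wI_le (hD : D.OK K m) {a x : ℕ} (hx : x ∈ D.Iv J a) :
    D.wI J a ≤ 2 ^ J * (3 * D.w x (sid D.w a)) := by
  have hw0 : ∀ x c, 0 ≤ D.w x c := hD.w_nonneg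
  have h3 : ∀ z ∈ D.Iv J a, D.w z (sid D.w a) ≤ 3 * D.w x (sid D.w a) := by
    intro z hz
    have e1 := w_close (j := J) hw0 x
    have e2 := w_close (j := J) hw0 z
    rw [← sd_of_mem hx, (mem_Iv.1 hx).2] at e1
    rw [← sd_of_mem hz, (mem_Iv.1 hz).2] at e2
    have e3 := abs_le.1 e1
    have e4 := abs_le.1 e2
    have e5 := hw0 a (sid D.w a)
    linarith [e3.1, e4.2]
  have hcard : (D.Iv J a).card ≤ 2 ^ J := by
    have hsub : D.Iv J a ⊆ Finset.Ico a (a + 2 ^ J) := by
      intro z hz
      have e1 := (mem_Iv.1 hz).2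
      have e2 := st_le (j := J) (w := D.w) z
      have e3 := st_block (j := J) (w := D.w) z
      rw [e1] at e2 e3
      rw [Finset.mem_Ico]
      refine ⟨e2, ?_⟩
      have hp : 0 < 2 ^ J := by positivity
      have e4 := Nat.lt_div_mul_add hp (a := z)
      have e5 := Nat.div_mul_le_self a (2 ^ J)
      rw [e3] at e5
      omega
    refine (Finset.card_le_card hsub).trans ?_
    rw [Nat.card_Ico, Nat.add_sub_cancel_left]
  calc D.wI J a ≤ ∑ z ∈ D.Iv J a, 3 * D.w x (sid D.w a) := Finset.sum_le_sum h3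
    _ = (D.Iv J a).card * (3 * D.w x (sid D.w a)) := by rw [Finset.sum_const, nsmul_eq_mul]
    _ ≤ 2 ^ J * (3 * D.w x (sid D.w a)) := by
        refine mul_le_mul_of_nonneg_right ?_ (mul_nonneg (by norm_num) (hw0 _ _))
        exact_mod_cast hcard

end Wd

/-- sum over `Fin n` of a function supported in a set `A` -/
theorem sum_fin_mem {E : Type} [AddCommMonoid E] {n : ℕ} {A : Finset ℕ} (hA : ∀ x ∈ A, x < n) (f : ℕ → E)
    (hf : ∀ x, x ∉ A → f x = 0) : ∑ x : Fin n, f x = ∑ x ∈ A, f x := by
  rw [← Finset.sum_range]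
  symm
  exact Finset.sum_subset (fun x hx => Finset.mem_range.2 (hA x hx)) fun x _ hx => hf x hx

/-- the jump inside an interval -/
theorem jmp2i {D : Wd N} (hD : D.OK K m) (hW : 0 < D.W) {a : ℕ} (ha : D.wI J a ≠ 0) :
    Jmp K 4 (D.phI J a) (fun x : Fin (2 ^ D.d) => if (x : ℕ) ∈ D.Iv J a then D.w x (sid D.w a) / D.wI J a else 0)
      (fun x => if (x : ℕ) ∈ D.Iv J a then D.phc x (sid D.w a) else 0) := by
  have hlt : ∀ x ∈ D.Iv J a, x < 2 ^ D.d := fun x hx => (Wd.mem_ne.1 (Wd.mem_Iv.1 hx).1).1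
  refine ⟨fun x => ?_, ?_, ?_, fun x => ?_, fun x => ?_⟩
  · split_ifs
    · exact div_nonneg (hD.w_nonneg _ _) (Wd.wI_nonneg hD a)
    · exact le_rfl
  · rw [sum_fin_mem hlt (fun x => if x ∈ D.Iv J a then D.w x (sid D.w a) / D.wI J a else 0)
      (fun x hx => if_neg hx)]
    rw [Finset.sum_congr rfl fun x hx => if_pos hx, ← Finset.sum_div]
    exact div_self ha
  · rw [sum_fin_mem hlt (fun x => (if x ∈ D.Iv J a then D.w x (sid D.w a) / D.wI J a else 0) •
      (if x ∈ D.Iv J a then D.phc x (sid D.w a) else 0)) (fun x hx => by rw [if_neg hx, zero_smul])]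
    unfold Wd.phI
    rw [Finset.smul_sum]
    refine Finset.sum_congr rfl fun x hx => ?_
    rw [if_pos hx, if_pos hx, smul_smul, div_eq_inv_mul]
    rfl
  · split_ifs with hx
    · exact Wd.phc_mem hD x.2 _
    · exact (Vs N K).zero_mem
  · split_ifs with hx
    · exact Wd.nr_phc_le hD hW (Wd.mem_Iv.1 hx).1 _
    · rw [nr_zero]
      norm_num

/-- sums over the cells split into exits and non-exits -/
theorem sum_ex_ne {E : Type} [AddCommMonoid E] {D : Wd N} (hD : D.OK K m) (f : ℕ → E) :
    ∑ x ∈ Finset.range (2 ^ D.d), f x = ∑ x ∈ D.ne, f x + ∑ x ∈ D.ex, f x := by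
  unfold Wd.ne
  rw [Finset.sum_sdiff hD.ex_sub]

/-- the jump from a long window -/
theorem jmp2 {D : Wd N} (hD : D.OK K m) (hW : 0 < D.W) :
    Jmp K 4 D.yQ (fun i : Fin (2 ^ D.d) × Bool =>
        if i.2 then (if (i.1 : ℕ) ∈ D.ex then 1 else D.w i.1 (!sd J D.w i.1)) / 2 ^ D.d
          else D.wI J i.1 / 2 ^ D.d)
      (fun i => if i.2 then D.y3 i.1 (!sd J D.w i.1) else D.phI J i.1) := by
  have hp : (0 : ℝ) < 2 ^ D.d := by positivity
  refine ⟨fun i => ?_, ?_, ?_, fun i => ?_, fun i => ?_⟩
  · split_ifs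
    · positivity
    · exact div_nonneg (hD.w_nonneg _ _) hp.le
    · exact div_nonneg (Wd.wI_nonneg hD _) hp.le
  · rw [sum_fin_bool (2 ^ D.d) (fun x c => if c then (if x ∈ D.ex then 1 else D.w x (!sd J D.w x)) / 2 ^ D.d
      else D.wI J x / 2 ^ D.d)]
    simp only [Bool.false_eq_true, if_false, if_true]
    rw [Finset.sum_add_distrib, ← Finset.sum_div, ← Finset.sum_div, Wd.sum_wI, sum_ex_ne hD (fun x =>
      (if x ∈ D.ex then (1 : ℝ) else D.w x (!sd J D.w x))), ← add_div, div_eq_one_iff_eq hp.ne']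
    have e1 : ∑ x ∈ D.ne, (if x ∈ D.ex then (1 : ℝ) else D.w x (!sd J D.w x)) = ∑ x ∈ D.ne, D.w x (!sd J D.w x) :=
      Finset.sum_congr rfl fun x hx => if_neg (Wd.mem_ne.1 hx).2
    have e2 : ∑ x ∈ D.ex, (if x ∈ D.ex then (1 : ℝ) else D.w x (!sd J D.w x)) = ∑ x ∈ D.ex, 1 :=
      Finset.sum_congr rfl fun x hx => if_pos hx
    have e3 : ∑ x ∈ D.ne, (1 : ℝ) = ∑ x ∈ D.ne, (D.w x (!sd J D.w x) + D.w x (sd J D.w x)) :=
      Finset.sum_congr rfl fun x _ => (Wd.w_sum' hD x _).symm
    have e4 : ((2 : ℝ) ^ D.d) = ∑ x ∈ D.ne, (1 : ℝ) + ∑ x ∈ D.ex, 1 := by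
      rw [← sum_ex_ne hD (fun _ => (1 : ℝ))]
      simp
    rw [e1, e2, e4, e3, Finset.sum_add_distrib]
    ring
  · rw [sum_fin_bool (2 ^ D.d) (fun x c => (if c then (if x ∈ D.ex then 1 else D.w x (!sd J D.w x)) / 2 ^ D.d
      else D.wI J x / 2 ^ D.d) • (if c then D.y3 x (!sd J D.w x) else D.phI J x))]
    simp only [Bool.false_eq_true, if_false, if_true]
    have e0 : ∀ x, (D.wI J x / 2 ^ D.d) • D.phI J x = ((2 : ℝ) ^ D.d)⁻¹ • (D.wI J x • D.phI J x) := by
      intro x
      rw [smul_smul, div_eq_inv_mul]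
    have e1 : ∑ x ∈ Finset.range (2 ^ D.d), D.wI J x • D.phI J x =
        ∑ x ∈ D.ne, D.w x (sd J D.w x) • D.phc x (sd J D.w x) := by
      have e2 := Wd.sum_Iv (D := D) (J := J) (fun a x => D.w x (sid D.w a) • D.phc x (sid D.w a))
      refine Eq.trans ?_ e2
      exact Finset.sum_congr rfl fun a _ => Wd.phI_eq hD J a
    have e2 : ∀ x, ((if x ∈ D.ex then 1 else D.w x (!sd J D.w x)) / 2 ^ D.d) • D.y3 x (!sd J D.w x) =
        ((2 : ℝ) ^ D.d)⁻¹ • ((if x ∈ D.ex then (1 : ℝ) else D.w x (!sd J D.w x)) • D.y3 x (!sd J D.w x)) := by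
      intro x
      rw [smul_smul, div_eq_inv_mul]
    rw [Finset.sum_add_distrib]
    simp only [e0, e2]
    rw [← Finset.smul_sum, ← Finset.smul_sum, e1, sum_ex_ne hD (fun x =>
      (if x ∈ D.ex then (1 : ℝ) else D.w x (!sd J D.w x)) • D.y3 x (!sd J D.w x)), ← smul_add, Wd.yQ_eq, av]
    congr 1
    have e3 : ∑ x ∈ Finset.range (2 ^ D.d), D.ph (0 * 2 ^ D.d + x) = ∑ x ∈ D.ne, D.ph x + ∑ x ∈ D.ex, D.ph x := by
      rw [← sum_ex_ne hD]
      refine Finset.sum_congr rfl fun x _ => ?_
      rw [zero_mul, zero_add]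
    rw [e3, ← add_assoc, ← Finset.sum_add_distrib]
    congr 1
    · refine Finset.sum_congr rfl fun x hx => ?_
      rw [if_neg (Wd.mem_ne.1 hx).2, Wd.y3, if_neg (Wd.mem_ne.1 hx).2, Wd.ph_eq hD hW hx]
      cases sd J D.w x
      · simp
      · simp only [Bool.not_true]
        rw [add_comm]
    · refine Finset.sum_congr rfl fun x hx => ?_
      rw [if_pos hx, Wd.y3, if_pos hx, one_smul]
  · split_ifs
    · exact Wd.y3_mem hD i.1.2 _
    · exact Wd.phI_mem hD _ _
  · split_ifs
    · exact Wd.nr_y3_le hD hW i.1.2 _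
    · exact Wd.nr_phI_le hD hW _ _

theorem aI_sub (D : Wd N) (a : ℕ) : D.aI K h J a ⊆ nds N K := Finset.filter_subset _ _

theorem P2_WFP (t : PTr N) : t.OK K m → 0 < t.W → (P2 K h J t).WFP K 4 t.nv := by
  induction t with
  | leaf lv W ν y =>
    intro _ _
    rw [P2]
    trivial
  | node D sub ih =>
    intro hOK hW
    have hD : D.OK K m := hOK.1
    have hW' : 0 < D.W := hW
    rw [P2, nv_node]
    split_ifs with hJ
    · refine ⟨jmp2 hD hW', ?_⟩
      rintro ⟨x, c⟩
      cases c with
      | true =>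
        simp only [if_true]
        split_ifs with hc
        · trivial
        · rw [not_or] at hc
          have hne : (x : ℕ) ∈ D.ne := Wd.mem_ne.2 ⟨x.2, hc.1⟩
          obtain ⟨c1, c2, c3, c4, c5⟩ := child hOK hW' hne hc.2
          have := ih x _ c1 c3
          rw [Wd.y3, if_neg hc.1]
          rwa [c5] at this
      | false =>
        simp only [Bool.false_eq_true, if_false]
        split_ifs with ha
        · trivial
        · refine ⟨aI_sub D _, jmp2i hD hW' ha, fun z => ?_⟩
          beta_reduce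
          split_ifs with hz hz2 hz3
          · obtain ⟨c1, c2, c3, c4, c5⟩ := child hOK hW' (Wd.mem_Iv.1 hz.1).1 hz.2
            have := ih z _ c1 c3
            rwa [c5] at this
          · exact absurd hz.1 hz2
          · trivial
          · trivial
    · refine ⟨jmp3 hD hW', fun i => ?_⟩
      beta_reduce
      split_ifs with hc
      · trivial
      · rw [not_or] at hc
        have hne : (i.1 : ℕ) ∈ D.ne := Wd.mem_ne.2 ⟨i.1.2, hc.1⟩
        obtain ⟨c1, c2, c3, c4, c5⟩ := child hOK hW' hne hc.2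
        have := ih i.1 i.2 c1 c3
        rw [Wd.y3, if_neg hc.1]
        rwa [c5] at this

theorem P2_Thr {g : ℝ} (hg0 : 0 ≤ g) (hg : 2 ^ J * 3 * g ≤ h) (t : PTr N) : t.OK K m → 0 < t.W →
    (P2 K h J t).Thr g t.nv := by
  induction t with
  | leaf lv W ν y =>
    intro _ _
    rw [P2]
    trivial
  | node D sub ih =>
    intro hOK hW
    have hD : D.OK K m := hOK.1
    have hW' : 0 < D.W := hW
    rw [P2, nv_node]
    split_ifs with hJ
    · rintro ⟨x, c⟩
      cases c with
      | true =>
        simp only [if_true]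
        split_ifs with hc
        · trivial
        · rw [not_or] at hc
          have hne : (x : ℕ) ∈ D.ne := Wd.mem_ne.2 ⟨x.2, hc.1⟩
          obtain ⟨c1, c2, c3, c4, c5⟩ := child hOK hW' hne hc.2
          have := ih x _ c1 c3
          rw [Wd.y3, if_neg hc.1]
          rwa [c5] at this
      | false =>
        simp only [Bool.false_eq_true, if_false]
        split_ifs with ha
        · trivial
        · refine ⟨fun q hq => ?_, fun z => ?_⟩
          · right
            unfold Wd.aI at hq
            obtain ⟨hq1, z, hz, hz2, hz3⟩ := Finset.mem_filter.1 hq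
            have hzlt : z < 2 ^ D.d := (Wd.mem_ne.1 (Wd.mem_Iv.1 hz).1).1
            have hwpos : 0 < D.w z (sid D.w x) := lt_of_le_of_ne (hD.w_nonneg _ _) (Ne.symm hz2)
            have hwI : 0 < D.wI J x := lt_of_le_of_ne (Wd.wI_nonneg hD _) (Ne.symm ha)
            rw [PT.nx]
            refine le_trans ?_ (Finset.single_le_sum (f := fun i : Fin (2 ^ D.d) =>
              (if (i : ℕ) ∈ D.Iv J x then D.w i (sid D.w x) / D.wI J x else 0) *
                ‖(if (i : ℕ) ∈ D.Iv J x then D.phc i (sid D.w x) else 0) q‖) (fun i _ => ?_)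
              (Finset.mem_univ (⟨z, hzlt⟩ : Fin (2 ^ D.d))))
            · simp only
              rw [if_pos hz, if_pos hz, div_mul_eq_mul_div, le_div_iff₀ hwI]
              have e1 := Wd.wI_le hD hz
              have e2 : g * D.wI J x ≤ g * (2 ^ J * (3 * D.w z (sid D.w x))) := mul_le_mul_of_nonneg_left e1 hg0
              have e3 : g * (2 ^ J * (3 * D.w z (sid D.w x))) = (2 ^ J * 3 * g) * D.w z (sid D.w x) := by ring
              rw [e3] at e2
              have e4 := mul_le_mul_of_nonneg_right (hg.trans hz3.le) hwpos.le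
              linarith
            · refine mul_nonneg ?_ (norm_nonneg _)
              split_ifs
              · exact div_nonneg (hD.w_nonneg _ _) hwI.le
              · exact le_rfl
          · beta_reduce
            split_ifs with hz hz2 hz3
            · obtain ⟨c1, c2, c3, c4, c5⟩ := child hOK hW' (Wd.mem_Iv.1 hz.1).1 hz.2
              have := ih z _ c1 c3
              rwa [c5] at this
            · exact absurd hz.1 hz2
            · trivial
            · trivial
    · intro i
      beta_reduce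
      split_ifs with hc
      · trivial
      · rw [not_or] at hc
        have hne : (i.1 : ℕ) ∈ D.ne := Wd.mem_ne.2 ⟨i.1.2, hc.1⟩
        obtain ⟨c1, c2, c3, c4, c5⟩ := child hOK hW' hne hc.2
        have := ih i.1 i.2 c1 c3
        rw [Wd.y3, if_neg hc.1]
        rwa [c5] at this

theorem P2_rec {E : S N → Y N → Y N → ℝ} {X C : Wd N → ℝ} (hE : ∀ s y y', 0 ≤ E s y y')
    (hshort : ∀ D : Wd N, D.OK K m → 0 < D.W → D.d < J → X D ≤ C D)
    (hG : ∀ D : Wd N, D.OK K m → 0 < D.W → J ≤ D.d → ∀ s : S N, Inv K 4 R0 s →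
      X D ≤ C D + D.Wx * ∑ x ∈ D.ne, D.w x (sd J D.w x) *
        E (s.note R0 (D.phI J (st J D.w x)) (D.aI K h J (st J D.w x))) (D.phI J (st J D.w x))
          (D.phc x (sd J D.w x))) (t : PTr N) :
    t.OK K m → 0 < t.W → ∀ s : S N, Inv K 4 R0 s →
      t.sum X ≤ t.sum C + t.W * (P2 K h J t).ES R0 E s t.nv := by
  classical
  induction t with
  | leaf lv W ν y =>
    intro _ _ s _
    rw [P2]
    simp [PTr.sum, PT.ES]
  | node D sub ih =>
    intro hOK hW s hs
    have hD : D.OK K m := hOK.1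
    have hW' : 0 < D.W := hW
    have hWx := Wd.Wx_pos hW'
    have hp : (0 : ℝ) < 2 ^ D.d := by positivity
    have hWt : (PTr.node D sub).W = D.Wx * 2 ^ D.d := by
      rw [mul_comm]
      exact (Wd.sum_Wx D).symm
    obtain ⟨ch, hch⟩ : ∃ ch : ℕ → Bool → ℝ, ch = fun x c =>
      (if D.w x c = 0 then 0 else (sub x c).sum X) - (if D.w x c = 0 then 0 else (sub x c).sum C) := ⟨_, rfl⟩
    have hsumX : (PTr.node D sub).sum X - (PTr.node D sub).sum C = X D - C D + ∑ x ∈ D.ne, (ch x false + ch x true) := by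
      rw [PTr.sum_node, PTr.sum_node]
      have e3 : ∀ x, ch x false + ch x true =
          ((if D.w x false = 0 then 0 else (sub x false).sum X) + (if D.w x true = 0 then 0 else (sub x true).sum X)) -
          ((if D.w x false = 0 then 0 else (sub x false).sum C) +
            (if D.w x true = 0 then 0 else (sub x true).sum C)) := by
        intro x
        rw [hch]
        ring
      simp only [e3, Finset.sum_sub_distrib]
      ring
    -- the children
    have hchle : ∀ x, x ∈ D.ne → ∀ c, ∀ s : S N, Inv K 4 R0 s → ch x c ≤ D.Wx * (D.w x c *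
        (if D.w x c = 0 then PT.nil else P2 K h J (sub x c)).ES R0 E s (D.phc x c)) := by
      intro x hx c s hs
      rw [hch]
      simp only
      split_ifs with hc
      · rw [hc]
        simp
      · obtain ⟨c1, c2, c3, c4, c5⟩ := child hOK hW' hx hc
        have h1 := ih x c c1 c3 s hs
        rw [c5, c4] at h1
        linarith
    by_cases hJ : J ≤ D.d
    · have h1 := hG D hD hW' hJ s hs
      obtain ⟨F, hF⟩ : ∃ F : ℕ → Bool → ℝ, F = fun x c =>
        (if c then (if x ∈ D.ex then 1 else D.w x (!sd J D.w x)) / 2 ^ D.d else D.wI J x / 2 ^ D.d) *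
        (E s D.yQ (if c then D.y3 x (!sd J D.w x) else D.phI J x) + (if c then
          (if x ∈ D.ex ∨ D.w x (!sd J D.w x) = 0 then PT.nil else P2 K h J (sub x (!sd J D.w x)))
          else if D.wI J x = 0 then .nil else
            .note (D.aI K h J x) (.jump (Fin (2 ^ D.d)) inferInstance
              (fun z => if (z : ℕ) ∈ D.Iv J x then D.w z (sid D.w x) / D.wI J x else 0)
              (fun z => if (z : ℕ) ∈ D.Iv J x then D.phc z (sid D.w x) else 0)
              (fun z => if (z : ℕ) ∈ D.Iv J x ∧ D.w z (sid D.w x) ≠ 0 then P2 K h J (sub z (sid D.w x))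
                else .nil))).ES R0 E s (if c then D.y3 x (!sd J D.w x) else D.phI J x)) := ⟨_, rfl⟩
      have hES : (P2 K h J (PTr.node D sub)).ES R0 E s (PTr.node D sub).nv =
          ∑ x ∈ Finset.range (2 ^ D.d), (F x false + F x true) := by
        rw [nv_node, P2, if_pos hJ, PT.ES, ← sum_fin_bool, hF]
      -- individual cells
      have hT0 : ∀ x, x ∈ D.ex → 0 ≤ F x true := by
        intro x hx
        rw [hF]
        simp only [if_true]
        rw [if_pos hx, if_pos (Or.inl hx)]
        simp only [PT.ES, add_zero]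
        exact mul_nonneg (by positivity) (hE _ _ _)
      have hT1 : ∀ x, x ∈ D.ne → ch x (!sd J D.w x) ≤ D.Wx * 2 ^ D.d * F x true := by
        intro x hx
        have hx2 := (Wd.mem_ne.1 hx).2
        have h2 := hchle x hx (!sd J D.w x) s hs
        rw [hF]
        simp only [if_true]
        rw [if_neg hx2, Wd.y3, if_neg hx2]
        have e1 : (if x ∈ D.ex ∨ D.w x (!sd J D.w x) = 0 then PT.nil else P2 K h J (sub x (!sd J D.w x))) =
            (if D.w x (!sd J D.w x) = 0 then PT.nil else P2 K h J (sub x (!sd J D.w x))) := by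
          by_cases hc : D.w x (!sd J D.w x) = 0
          · rw [if_pos hc, if_pos (Or.inr hc)]
          · rw [if_neg hc, if_neg (not_or.2 ⟨hx2, hc⟩)]
        rw [e1]
        have e2 : 0 ≤ D.Wx * (D.w x (!sd J D.w x) * E s D.yQ (D.phc x (!sd J D.w x))) :=
          mul_nonneg hWx.le (mul_nonneg (hD.w_nonneg _ _) (hE _ _ _))
        have e3 : ∀ z : ℝ, D.Wx * 2 ^ D.d * (D.w x (!sd J D.w x) / 2 ^ D.d *
            (E s D.yQ (D.phc x (!sd J D.w x)) + z)) =
            D.Wx * (D.w x (!sd J D.w x) * E s D.yQ (D.phc x (!sd J D.w x))) +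
              D.Wx * (D.w x (!sd J D.w x) * z) := by
          intro z
          field_simp
        rw [e3]
        linarith
      -- intervals
      have hI1 : ∀ a, a ∈ Finset.range (2 ^ D.d) →
          ∑ x ∈ D.Iv J a, (D.Wx * (D.w x (sid D.w a) *
            E (s.note R0 (D.phI J a) (D.aI K h J a)) (D.phI J a) (D.phc x (sid D.w a))) + ch x (sid D.w a)) ≤
          D.Wx * 2 ^ D.d * F a false := by
        intro a _
        rw [hF]
        simp only [Bool.false_eq_true, if_false]
        by_cases ha : D.wI J a = 0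
        · have hz : ∀ x ∈ D.Iv J a, D.w x (sid D.w a) = 0 := by
            have := (Finset.sum_eq_zero_iff_of_nonneg (fun x _ => hD.w_nonneg x (sid D.w a))).1 ha
            exact this
          rw [ha, zero_div, zero_mul, mul_zero]
          refine le_of_eq (Finset.sum_eq_zero fun x hx => ?_)
          rw [hch]
          simp only
          rw [hz x hx, if_pos rfl, if_pos rfl]
          ring
        · rw [if_neg ha, PT.ES, PT.ES]
          obtain ⟨s', hs'⟩ : ∃ s', s' = s.note R0 (D.phI J a) (D.aI K h J a) := ⟨_, rfl⟩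
          rw [← hs']
          have hI : Inv K 4 R0 s' := by
            rw [hs']
            exact inv_note hs (Wd.phI_mem hD J a) (Wd.nr_phI_le hD hW' J a) (aI_sub D a)
          have hwI : 0 < D.wI J a := lt_of_le_of_ne (Wd.wI_nonneg hD a) (Ne.symm ha)
          have hlt : ∀ x ∈ D.Iv J a, x < 2 ^ D.d := fun x hx => (Wd.mem_ne.1 (Wd.mem_Iv.1 hx).1).1
          rw [sum_fin_mem hlt (fun z => (if z ∈ D.Iv J a then D.w z (sid D.w a) / D.wI J a else 0) *
            (E s' (D.phI J a) (if z ∈ D.Iv J a then D.phc z (sid D.w a) else 0) +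
              (if z ∈ D.Iv J a ∧ D.w z (sid D.w a) ≠ 0 then P2 K h J (sub z (sid D.w a))
                else .nil).ES R0 E s' (if z ∈ D.Iv J a then D.phc z (sid D.w a) else 0)))
            (fun x hx => by rw [if_neg hx, zero_mul])]
          have e1 : D.Wx * ∑ x ∈ D.Iv J a, D.w x (sid D.w a) * (E s' (D.phI J a) (D.phc x (sid D.w a)) +
              (if D.w x (sid D.w a) = 0 then PT.nil else P2 K h J (sub x (sid D.w a))).ES R0 E s'
                (D.phc x (sid D.w a))) ≤ D.Wx * 2 ^ D.d * (D.wI J a / 2 ^ D.d * (E s D.yQ (D.phI J a) +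
              ∑ x ∈ D.Iv J a, (if x ∈ D.Iv J a then D.w x (sid D.w a) / D.wI J a else 0) *
            (E s' (D.phI J a) (if x ∈ D.Iv J a then D.phc x (sid D.w a) else 0) +
              (if x ∈ D.Iv J a ∧ D.w x (sid D.w a) ≠ 0 then P2 K h J (sub x (sid D.w a))
                else .nil).ES R0 E s' (if x ∈ D.Iv J a then D.phc x (sid D.w a) else 0)))) := by
            have f1 : ∑ x ∈ D.Iv J a, (if x ∈ D.Iv J a then D.w x (sid D.w a) / D.wI J a else 0) *
            (E s' (D.phI J a) (if x ∈ D.Iv J a then D.phc x (sid D.w a) else 0) +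
              (if x ∈ D.Iv J a ∧ D.w x (sid D.w a) ≠ 0 then P2 K h J (sub x (sid D.w a))
                else .nil).ES R0 E s' (if x ∈ D.Iv J a then D.phc x (sid D.w a) else 0)) =
              (D.wI J a)⁻¹ * ∑ x ∈ D.Iv J a, D.w x (sid D.w a) * (E s' (D.phI J a) (D.phc x (sid D.w a)) +
              (if D.w x (sid D.w a) = 0 then PT.nil else P2 K h J (sub x (sid D.w a))).ES R0 E s'
                (D.phc x (sid D.w a))) := by
              rw [Finset.mul_sum]
              refine Finset.sum_congr rfl fun x hx => ?_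
              rw [if_pos hx, if_pos hx]
              have g1 : (if x ∈ D.Iv J a ∧ D.w x (sid D.w a) ≠ 0 then P2 K h J (sub x (sid D.w a)) else PT.nil) =
                  (if D.w x (sid D.w a) = 0 then PT.nil else P2 K h J (sub x (sid D.w a))) := by
                by_cases hc : D.w x (sid D.w a) = 0
                · rw [if_pos hc, if_neg (fun hh => hh.2 hc)]
                · rw [if_neg hc, if_pos ⟨hx, hc⟩]
              rw [g1, ← mul_assoc]
              congr 1
              rw [div_eq_inv_mul]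
            rw [f1]
            have f2 : 0 ≤ D.Wx * (D.wI J a * E s D.yQ (D.phI J a)) :=
              mul_nonneg hWx.le (mul_nonneg hwI.le (hE _ _ _))
            have f3 : ∀ z : ℝ, D.Wx * 2 ^ D.d * (D.wI J a / 2 ^ D.d * (E s D.yQ (D.phI J a) + (D.wI J a)⁻¹ * z)) =
                D.Wx * (D.wI J a * E s D.yQ (D.phI J a)) + D.Wx * z := by
              intro z
              field_simp
            rw [f3]
            linarith
          refine le_trans ?_ e1
          rw [Finset.mul_sum]
          refine Finset.sum_le_sum fun x hx => ?_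
          have := hchle x (Wd.mem_Iv.1 hx).1 (sid D.w a) s' hI
          linarith
      have hsumI := Finset.sum_le_sum hI1
      rw [Wd.sum_Iv (D := D) (J := J) (fun a x => D.Wx * (D.w x (sid D.w a) *
            E (s.note R0 (D.phI J a) (D.aI K h J a)) (D.phI J a) (D.phc x (sid D.w a))) + ch x (sid D.w a)),
        ← Finset.mul_sum] at hsumI
      have hsumT : ∑ x ∈ D.ne, ch x (!sd J D.w x) ≤ D.Wx * 2 ^ D.d * ∑ x ∈ Finset.range (2 ^ D.d), F x true := by
        refine (Finset.sum_le_sum hT1).trans ?_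
        rw [← Finset.mul_sum]
        refine mul_le_mul_of_nonneg_left ?_ (mul_nonneg hWx.le hp.le)
        refine Finset.sum_le_sum_of_subset_of_nonneg (fun x hx => Finset.mem_range.2 (Wd.mem_ne.1 hx).1)
          fun x hx hx' => ?_
        have hex : x ∈ D.ex := by
          by_contra hcon
          exact hx' (Wd.mem_ne.2 ⟨Finset.mem_range.1 hx, hcon⟩)
        exact hT0 x hex
      have hsumC : ∑ x ∈ D.ne, (ch x false + ch x true) =
          ∑ x ∈ D.ne, (ch x (sd J D.w x)) + ∑ x ∈ D.ne, ch x (!sd J D.w x) := by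
        rw [← Finset.sum_add_distrib]
        refine Finset.sum_congr rfl fun x _ => ?_
        cases sd J D.w x
        · simp
        · simp only [Bool.not_true]
          rw [add_comm]
      have hsplit : ∑ x ∈ D.ne, (D.Wx * (D.w x (sid D.w (st J D.w x)) *
            E (s.note R0 (D.phI J (st J D.w x)) (D.aI K h J (st J D.w x))) (D.phI J (st J D.w x))
              (D.phc x (sid D.w (st J D.w x)))) + ch x (sid D.w (st J D.w x))) =
          D.Wx * ∑ x ∈ D.ne, D.w x (sd J D.w x) *
        E (s.note R0 (D.phI J (st J D.w x)) (D.aI K h J (st J D.w x))) (D.phI J (st J D.w x))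
          (D.phc x (sd J D.w x)) + ∑ x ∈ D.ne, (ch x (sd J D.w x)) := by
        rw [Finset.sum_add_distrib, Finset.mul_sum]
        rfl
      rw [hsplit] at hsumI
      rw [hES, hWt, Finset.sum_add_distrib, mul_add]
      linarith
    · have h1 := hshort D hD hW' (not_le.1 hJ)
      obtain ⟨F, hF⟩ : ∃ F : ℕ → Bool → ℝ, F = fun x c => D.w x c / 2 ^ D.d * (E s D.yQ (D.y3 x c) +
        (if x ∈ D.ex ∨ D.w x c = 0 then PT.nil else P2 K h J (sub x c)).ES R0 E s (D.y3 x c)) := ⟨_, rfl⟩
      have hES : (P2 K h J (PTr.node D sub)).ES R0 E s (PTr.node D sub).nv =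
          ∑ x ∈ Finset.range (2 ^ D.d), (F x false + F x true) := by
        rw [nv_node, P2, if_neg hJ, PT.ES, ← sum_fin_bool, hF]
      have hF0 : ∀ x, x ∈ D.ex → ∀ c, 0 ≤ F x c := by
        intro x hx c
        rw [hF]
        simp only
        rw [if_pos (Or.inl hx)]
        simp only [PT.ES, add_zero]
        exact mul_nonneg (div_nonneg (hD.w_nonneg x c) hp.le) (hE _ _ _)
      have hF1 : ∀ x, x ∈ D.ne → ∀ c, ch x c ≤ D.Wx * 2 ^ D.d * F x c := by
        intro x hx c
        have hx2 := (Wd.mem_ne.1 hx).2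
        have h2 := hchle x hx c s hs
        rw [hF]
        simp only
        rw [Wd.y3, if_neg hx2]
        have e1 : (if x ∈ D.ex ∨ D.w x c = 0 then PT.nil else P2 K h J (sub x c)) =
            (if D.w x c = 0 then PT.nil else P2 K h J (sub x c)) := by
          by_cases hc : D.w x c = 0
          · rw [if_pos hc, if_pos (Or.inr hc)]
          · rw [if_neg hc, if_neg (not_or.2 ⟨hx2, hc⟩)]
        rw [e1]
        have e2 : 0 ≤ D.Wx * (D.w x c * E s D.yQ (D.phc x c)) :=
          mul_nonneg hWx.le (mul_nonneg (hD.w_nonneg _ _) (hE _ _ _))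
        have e3 : ∀ z : ℝ, D.Wx * 2 ^ D.d * (D.w x c / 2 ^ D.d * (E s D.yQ (D.phc x c) + z)) =
            D.Wx * (D.w x c * E s D.yQ (D.phc x c)) + D.Wx * (D.w x c * z) := by
          intro z
          field_simp
        rw [e3]
        linarith
      have hsumF : ∑ x ∈ D.ne, (ch x false + ch x true) ≤
          D.Wx * 2 ^ D.d * ∑ x ∈ Finset.range (2 ^ D.d), (F x false + F x true) := by
        refine (Finset.sum_le_sum fun x hx => add_le_add (hF1 x hx false) (hF1 x hx true)).trans ?_
        simp only [← mul_add]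
        rw [← Finset.mul_sum]
        refine mul_le_mul_of_nonneg_left ?_ (mul_nonneg hWx.le hp.le)
        refine Finset.sum_le_sum_of_subset_of_nonneg (fun x hx => Finset.mem_range.2 (Wd.mem_ne.1 hx).1)
          fun x hx hx' => ?_
        have hex : x ∈ D.ex := by
          by_contra hcon
          exact hx' (Wd.mem_ne.2 ⟨Finset.mem_range.1 hx, hcon⟩)
        exact add_nonneg (hF0 x hex _) (hF0 x hex _)
      rw [hES, hWt]
      linarith

end H50RC
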