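import Pool.Agent.H80.RC.Wcl

/-!
S05864 [H80 RC P3R] (PART C6 of proofs 322): the process PT3 of a phase: well formed, threshold `g ≤ h`, noisy notes, and the recursion. Induction on the phase tree.
-/

set_option autoImplicit false

namespace H50RC

variable {N K m R0 : ℕ} {h : ℝ}

/-- sums over `Fin n × Bool` -/
theorem sum_fin_bool {E : Type} [AddCommMonoid E] (n : ℕ) (f : ℕ → Bool → E) :
    ∑ i : Fin n × Bool, f i.1 i.2 = ∑ x ∈ Finset.range n, (f x false + f x true) := by
  rw [Fintype.sum_prod_type, Finset.sum_range]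
  refine Finset.sum_congr rfl fun x _ => ?_
  rw [Fintype.sum_bool, add_comm]

/-- the jump from a window to its cells is admissible -/
theorem jmp3 {D : Wd N} (hD : D.OK K m) (hW : 0 < D.W) :
    Jmp K 4 D.yQ (fun i : Fin (2 ^ D.d) × Bool => D.w i.1 i.2 / 2 ^ D.d) (fun i => D.y3 i.1 i.2) := by
  have hp : (0 : ℝ) < 2 ^ D.d := by positivity
  refine ⟨fun i => div_nonneg (hD.w_nonneg _ _) hp.le, ?_, ?_, fun i => Wd.y3_mem hD i.1.2 _,
    fun i => Wd.nr_y3_le hD hW i.1.2 _⟩
  · rw [sum_fin_bool (2 ^ D.d) (fun x c => D.w x c / 2 ^ D.d)]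
    have h1 : ∀ x ∈ Finset.range (2 ^ D.d), D.w x false / 2 ^ D.d + D.w x true / 2 ^ D.d = (2 ^ D.d : ℝ)⁻¹ := by
      intro x _
      rw [← add_div, hD.w_sum, one_div]
    rw [Finset.sum_congr rfl h1, Finset.sum_const, Finset.card_range, nsmul_eq_mul]
    push_cast
    exact mul_inv_cancel₀ hp.ne'
  · rw [sum_fin_bool (2 ^ D.d) (fun x c => (D.w x c / 2 ^ D.d) • D.y3 x c), Wd.yQ_eq, av, Finset.smul_sum]
    refine Finset.sum_congr rfl fun x hx => ?_
    rw [zero_mul, zero_add, ← Wd.y3_mean hD hW (Finset.mem_range.1 hx), smul_add, smul_smul, smul_smul]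
    congr 2 <;> ring

theorem P3_WFP (t : PTr N) : t.OK K m → 0 < t.W → (P3 K h t).WFP K 4 t.nv := by
  induction t with
  | leaf lv W ν y =>
    intro _ _
    rw [P3]
    exact ⟨big_sub _, trivial⟩
  | node D sub ih =>
    intro hOK hW
    have hD : D.OK K m := hOK.1
    have hW' : 0 < D.W := hW
    rw [P3, nv_node]
    refine ⟨big_sub _, jmp3 hD hW', fun i => ?_⟩
    beta_reduce
    split_ifs with hc
    · exact ⟨big_sub _, trivial⟩
    · rw [not_or] at hc
      have hne : (i.1 : ℕ) ∈ D.ne := Wd.mem_ne.2 ⟨i.1.2, hc.1⟩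
      obtain ⟨c1, c2, c3, c4, c5⟩ := child hOK hW' hne hc.2
      have := ih i.1 i.2 c1 c3
      rw [Wd.y3, if_neg hc.1]
      rwa [c5] at this

theorem P3_Thr {g : ℝ} (hg : g ≤ h) (t : PTr N) : t.OK K m → 0 < t.W → (P3 K h t).Thr g t.nv := by
  induction t with
  | leaf lv W ν y =>
    intro _ _
    rw [P3]
    refine ⟨fun q hq => ?_, trivial⟩
    left
    have h1 : h < ‖(PTr.leaf lv W ν y).nv q‖ := (mem_big.1 hq).2
    linarith
  | node D sub ih =>
    intro hOK hW
    have hD : D.OK K m := hOK.1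
    have hW' : 0 < D.W := hW
    rw [P3, nv_node]
    refine ⟨fun q hq => ?_, fun i => ?_⟩
    · left
      have := (mem_big.1 hq).2
      linarith
    beta_reduce
    split_ifs with hc
    · refine ⟨fun q hq => ?_, trivial⟩
      left
      have := (mem_big.1 hq).2
      linarith
    · rw [not_or] at hc
      have hne : (i.1 : ℕ) ∈ D.ne := Wd.mem_ne.2 ⟨i.1.2, hc.1⟩
      obtain ⟨c1, c2, c3, c4, c5⟩ := child hOK hW' hne hc.2
      have := ih i.1 i.2 c1 c3
      rw [Wd.y3, if_neg hc.1]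
      rwa [c5] at this

private theorem P3_Ns_true (t : PTr N) : t.OK K m → 0 < t.W → Ns K h true (P3 K h t) t.nv := by
  induction t with
  | leaf lv W ν y =>
    intro _ _
    rw [P3]
    exact ⟨Finset.Subset.refl _, trivial⟩
  | node D sub ih =>
    intro hOK hW
    have hD : D.OK K m := hOK.1
    have hW' : 0 < D.W := hW
    rw [P3, nv_node]
    refine ⟨Finset.Subset.refl _, fun i => ?_⟩
    beta_reduce
    split_ifs with hc
    · exact ⟨Finset.Subset.refl _, trivial⟩
    · rw [not_or] at hc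
      have hne : (i.1 : ℕ) ∈ D.ne := Wd.mem_ne.2 ⟨i.1.2, hc.1⟩
      obtain ⟨c1, c2, c3, c4, c5⟩ := child hOK hW' hne hc.2
      have := ih i.1 i.2 c1 c3
      rw [Wd.y3, if_neg hc.1]
      rwa [c5] at this

theorem P3_Ns (t : PTr N) (hOK : t.OK K m) (hW : 0 < t.W) : Ns K h false (P3 K h t) t.nv := by
  have h1 := P3_Ns_true (h := h) t hOK hW
  cases t with
  | leaf lv W ν y =>
    rw [P3] at h1 ⊢
    exact h1.2
  | node D sub =>
    rw [P3] at h1 ⊢
    exact h1.2

theorem P3_rec {E : S N → Y N → Y N → ℝ} {X C : Wd N → ℝ} (hE : ∀ s y y', 0 ≤ E s y y')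
    (hG : ∀ D : Wd N, D.OK K m → 0 < D.W → ∀ s : S N, Inv K 4 R0 s → QuietL K h R0 s D.yQ →
      X D ≤ C D + D.Wx * ∑ x ∈ D.ne, ∑ c, D.w x c * E s D.yQ (D.phc x c)) (t : PTr N) :
    t.OK K m → 0 < t.W → ∀ s : S N, Inv K 4 R0 s →
      t.sum X ≤ t.sum C + t.W * (P3 K h t).ES R0 E s t.nv := by
  classical
  induction t with
  | leaf lv W ν y =>
    intro _ _ s _
    rw [P3]
    simp [PTr.sum, PT.ES]
  | node D sub ih =>
    intro hOK hW s hs
    have hD : D.OK K m := hOK.1
    have hW' : 0 < D.W := hW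
    have hWx := Wd.Wx_pos hW'
    have hp : (0 : ℝ) < 2 ^ D.d := by positivity
    obtain ⟨s', hs'⟩ : ∃ s', s' = s.note R0 D.yQ (big K h D.yQ) := ⟨_, rfl⟩
    have hyV := Wd.yQ_mem hD hW'
    have hyB := Wd.nr_yQ_le hD hW'
    have hI : Inv K 4 R0 s' := by
      rw [hs']
      exact inv_note hs hyV hyB (big_sub _)
    have hq : QuietL K h R0 s' D.yQ := by
      rw [hs']
      exact quietL_note hs hyV hyB (big_sub _) _ (Finset.Subset.refl _)
    have h1 := hG D hD hW' s' hI hq
    obtain ⟨F, hF⟩ : ∃ F : ℕ → Bool → ℝ, F = fun x c => D.w x c * (E s' D.yQ (D.y3 x c) +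
        (if x ∈ D.ex ∨ D.w x c = 0 then PT.note (big K h (D.y3 x c)) .nil
          else P3 K h (sub x c)).ES R0 E s' (D.y3 x c)) := ⟨_, rfl⟩
    have hES : (P3 K h (PTr.node D sub)).ES R0 E s (PTr.node D sub).nv =
        (2 ^ D.d : ℝ)⁻¹ * ∑ x ∈ Finset.range (2 ^ D.d), (F x false + F x true) := by
      rw [nv_node, P3, PT.ES, ← hs', PT.ES, ← sum_fin_bool, Finset.mul_sum]
      refine Finset.sum_congr rfl fun i _ => ?_
      rw [hF]
      simp only
      rw [← mul_assoc]
      congr 1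
      rw [div_eq_inv_mul]
    have hF0 : ∀ x, x ∈ D.ex → ∀ c, 0 ≤ F x c := by
      intro x hx c
      rw [hF]
      simp only
      rw [if_pos (Or.inl hx)]
      simp only [PT.ES, add_zero]
      exact mul_nonneg (hD.w_nonneg x c) (hE _ _ _)
    have hF1 : ∀ x, x ∈ D.ne → ∀ c, D.Wx * (D.w x c * E s' D.yQ (D.phc x c)) +
        ((if D.w x c = 0 then 0 else (sub x c).sum X) - (if D.w x c = 0 then 0 else (sub x c).sum C)) ≤
        D.Wx * F x c := by
      intro x hx c
      have hx2 := (Wd.mem_ne.1 hx).2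
      rw [hF]
      simp only
      rw [Wd.y3, if_neg hx2]
      by_cases hc : D.w x c = 0
      · rw [if_pos hc, if_pos hc, if_pos (Or.inr hc), hc]
        simp
      · rw [if_neg hc, if_neg hc, if_neg (not_or.2 ⟨hx2, hc⟩)]
        obtain ⟨c1, c2, c3, c4, c5⟩ := child hOK hW' hx hc
        have h1 := ih x c c1 c3 s' hI
        rw [c5, c4] at h1
        linarith
    have hsumF : ∑ x ∈ D.ne, (D.Wx * F x false + D.Wx * F x true) ≤
        D.Wx * ∑ x ∈ Finset.range (2 ^ D.d), (F x false + F x true) := by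
      rw [Finset.mul_sum]
      simp only [← mul_add]
      refine Finset.sum_le_sum_of_subset_of_nonneg (fun x hx => Finset.mem_range.2 (Wd.mem_ne.1 hx).1)
        fun x hx hx' => ?_
      have hex : x ∈ D.ex := by
        by_contra hcon
        exact hx' (Wd.mem_ne.2 ⟨Finset.mem_range.1 hx, hcon⟩)
      exact mul_nonneg hWx.le (add_nonneg (hF0 x hex _) (hF0 x hex _))
    have hsum2 : ∑ x ∈ D.ne, ((D.Wx * (D.w x false * E s' D.yQ (D.phc x false)) +
        ((if D.w x false = 0 then 0 else (sub x false).sum X) - (if D.w x false = 0 then 0 else (sub x false).sum C))) +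
        (D.Wx * (D.w x true * E s' D.yQ (D.phc x true)) +
        ((if D.w x true = 0 then 0 else (sub x true).sum X) - (if D.w x true = 0 then 0 else (sub x true).sum C)))) ≤
        ∑ x ∈ D.ne, (D.Wx * F x false + D.Wx * F x true) :=
      Finset.sum_le_sum fun x hx => add_le_add (hF1 x hx false) (hF1 x hx true)
    have hsum3 : ∑ x ∈ D.ne, ((D.Wx * (D.w x false * E s' D.yQ (D.phc x false)) +
        ((if D.w x false = 0 then 0 else (sub x false).sum X) - (if D.w x false = 0 then 0 else (sub x false).sum C))) +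
        (D.Wx * (D.w x true * E s' D.yQ (D.phc x true)) +
        ((if D.w x true = 0 then 0 else (sub x true).sum X) - (if D.w x true = 0 then 0 else (sub x true).sum C)))) =
        D.Wx * ∑ x ∈ D.ne, ∑ c, D.w x c * E s' D.yQ (D.phc x c) +
          (((PTr.node D sub).sum X - X D) - ((PTr.node D sub).sum C - C D)) := by
      rw [PTr.sum_node, PTr.sum_node, add_sub_cancel_left, add_sub_cancel_left, Finset.mul_sum,
        ← Finset.sum_sub_distrib, ← Finset.sum_add_distrib]
      refine Finset.sum_congr rfl fun x _ => ?_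
      rw [Fintype.sum_bool]
      ring
    have hWt : (PTr.node D sub).W = D.Wx * 2 ^ D.d := by
      rw [mul_comm]
      exact (Wd.sum_Wx D).symm
    rw [hES, hWt]
    have e1 : D.Wx * 2 ^ D.d * ((2 ^ D.d : ℝ)⁻¹ * ∑ x ∈ Finset.range (2 ^ D.d), (F x false + F x true)) =
        D.Wx * ∑ x ∈ Finset.range (2 ^ D.d), (F x false + F x true) := by
      rw [mul_assoc, ← mul_assoc ((2 : ℝ) ^ D.d), mul_inv_cancel₀ hp.ne', one_mul]
    rw [e1]
    linarith

end H50RC
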