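import Pool.Agent.H80.RC.Ies
import Pool.Agent.H83.RC.Ref

/-!
S05864 [H80 RC PCS] (PART C6 of proofs 322): the three processes of a phase: definitions. No gaps.
-/

set_option autoImplicit false

namespace H50RC

/-- the dyadic process: from the average over `(j, i)` down to the cells, then the tails `tl x` -/
noncomputable def dyP (K : ℕ) {N : ℕ} (h : ℝ) (f : ℕ → Y N) (tl : ℕ → PT N) : ℕ → ℕ → PT N
  | 0, i => tl i
  | j + 1, i => .note (big K h (av f (j + 1) i) ∪ (big K h (av f j (2 * i)) ∪ big K h (av f j (2 * i + 1))))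
      (.jump Bool inferInstance (fun _ => (2 : ℝ)⁻¹) (fun b => av f j (if b then 2 * i + 1 else 2 * i))
        (fun b => dyP K h f tl j (if b then 2 * i + 1 else 2 * i)))

/-- value at the cell `(x, c)` -/
noncomputable def Wd.y3 {N : ℕ} (D : Wd N) (x : ℕ) (c : Bool) : Y N := if x ∈ D.ex then D.ph x else D.phc x c

/-- value at the window -/
noncomputable def Wd.yQ {N : ℕ} (D : Wd N) : Y N := D.W⁻¹ • ∑ x ∈ Finset.range (2 ^ D.d), D.yt x

/-- weight of the interval with the start `a` -/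
noncomputable def Wd.wI {N : ℕ} (D : Wd N) (J a : ℕ) : ℝ := ∑ x ∈ D.Iv J a, D.w x (sid D.w a)

open Classical in
/-- nodes noted at the interval with the start `a` -/
noncomputable def Wd.aI {N : ℕ} (D : Wd N) (K : ℕ) (h : ℝ) (J a : ℕ) : Finset (Nd N) :=
  (nds N K).filter (fun q => ∃ x ∈ D.Iv J a, D.w x (sid D.w a) ≠ 0 ∧ h < ‖D.phc x (sid D.w a) q‖)

open Classical in
/-- PT1 -/
noncomputable def P1 (K : ℕ) {N : ℕ} (h : ℝ) : PTr N → PT N
  | .leaf _ _ _ _ => .nil
  | .node D sub => dyP K h D.ph (fun x => if x ∈ D.ex then .nil else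
      .jump Bool inferInstance (fun c => D.w x c) (fun c => D.phc x c)
        (fun c => if D.w x c = 0 then .nil else P1 K h (sub x c))) D.d 0

open Classical in
/-- PT3 -/
noncomputable def P3 (K : ℕ) {N : ℕ} (h : ℝ) : PTr N → PT N
  | .leaf _ W _ y => .note (big K h (W⁻¹ • y)) .nil
  | .node D sub => .note (big K h D.yQ) (.jump (Fin (2 ^ D.d) × Bool) inferInstance
      (fun i => D.w i.1 i.2 / 2 ^ D.d) (fun i => D.y3 i.1 i.2)
      (fun i => if (i.1 : ℕ) ∈ D.ex ∨ D.w i.1 i.2 = 0 then .note (big K h (D.y3 i.1 i.2)) .nil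
        else P3 K h (sub i.1 i.2)))

open Classical in
/-- PT2 -/
noncomputable def P2 (K : ℕ) {N : ℕ} (h : ℝ) (J : ℕ) : PTr N → PT N
  | .leaf _ _ _ _ => .nil
  | .node D sub => if J ≤ D.d then
      .jump (Fin (2 ^ D.d) × Bool) inferInstance
        (fun i => if i.2 then (if (i.1 : ℕ) ∈ D.ex then 1 else D.w i.1 (!sd J D.w i.1)) / 2 ^ D.d
          else D.wI J i.1 / 2 ^ D.d)
        (fun i => if i.2 then D.y3 i.1 (!sd J D.w i.1) else D.phI J i.1)
        (fun i => if i.2 then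
          (if (i.1 : ℕ) ∈ D.ex ∨ D.w i.1 (!sd J D.w i.1) = 0 then .nil else P2 K h J (sub i.1 (!sd J D.w i.1)))
          else if D.wI J i.1 = 0 then .nil else
            .note (D.aI K h J i.1) (.jump (Fin (2 ^ D.d)) inferInstance
              (fun x => if (x : ℕ) ∈ D.Iv J i.1 then D.w x (sid D.w i.1) / D.wI J i.1 else 0)
              (fun x => if (x : ℕ) ∈ D.Iv J i.1 then D.phc x (sid D.w i.1) else 0)
              (fun x => if (x : ℕ) ∈ D.Iv J i.1 ∧ D.w x (sid D.w i.1) ≠ 0 then P2 K h J (sub x (sid D.w i.1))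
                else .nil)))
    else .jump (Fin (2 ^ D.d) × Bool) inferInstance
      (fun i => D.w i.1 i.2 / 2 ^ D.d) (fun i => D.y3 i.1 i.2)
      (fun i => if (i.1 : ℕ) ∈ D.ex ∨ D.w i.1 i.2 = 0 then .nil else P2 K h J (sub i.1 i.2))

end H50RC
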