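import Pool.Agent.H80.RC.P2r

/-!
S05864 [H80 RC WPT] (PART C6 of proofs 322): the window inequalities for the three processes, one step. `ctb` = coefficient of the squares.
-/

set_option autoImplicit false

namespace H50RC

variable {N K m L R0 J : ℕ} {ε h : ℝ}

/-- coefficient of the square of the slopes in the general estimate -/
noncomputable def ctb (K m N : ℕ) (θ θ1 θ2 : ℝ) : ℝ :=
  θ + θ1 * (520 * rp m ^ 2 * (K : ℝ) ^ 5) + θ2 * (130 * rp m ^ 2 * (K : ℝ) ^ 5 * (N : ℝ)⁻¹)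

private theorem pr_split {M : Finset (Nd N)} (hM' : ∀ q ∈ M, q.length ≤ K) (v : Nd N → ℂ) (η : Om N) {δ z : Y N}
    (hδ : δ ∈ Xs N K m) (hz : z = δ ∨ z = -δ) :
    |pr K m η δ| ≤ ∑ p ∈ (nds N K).filter (fun p => p ∈ M), |η p| * |FF K m L ε M v p z| +
      ∑ q ∈ (nds N K).filter (fun q => q ∉ M), |η q| * ‖z q‖ + ∑ q ∈ insert [] (nds N K), 0 * ‖z q‖ := by
  have hzX : z ∈ Xs N K m := by
    rcases hz with rfl | rfl
    · exact hδ
    · exact (Xs N K m).neg_mem hδ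
  have hpr : |pr K m η δ| = |pr K m η z| := by
    rcases hz with rfl | rfl
    · rfl
    · have h1 := pr_sub_right (K := K) m η 0 δ
      rw [zero_sub, pr_zero_right, zero_sub] at h1
      rw [h1, abs_neg]
  rw [hpr]
  simp only [zero_mul, Finset.sum_const_zero, add_zero]
  unfold pr
  rw [← Finset.sum_filter_add_sum_filter_not (nds N K) (fun p => p ∈ M)]
  refine (abs_add_le _ _).trans (add_le_add ?_ ?_)
  · refine (Finset.abs_sum_le_sum_abs _ _).trans (Finset.sum_le_sum fun p hp => ?_)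
    rw [FF_X M hM' v (Finset.mem_filter.1 hp).2 hzX, abs_mul]
  · refine (Finset.abs_sum_le_sum_abs _ _).trans (Finset.sum_le_sum fun q _ => ?_)
    rw [abs_mul]
    refine mul_le_mul_of_nonneg_left ?_ (abs_nonneg _)
    have := abs_dt_le (dir m q.length) (z q)
    rwa [norm_dir, one_mul] at this

private theorem sum_abs_sq (η : Om N) : ∑ q ∈ nds N K, |η q| ^ 2 = nq K η := by
  unfold nq
  exact Finset.sum_congr rfl fun q _ => sq_abs _

/-- one dyadic step -/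
theorem W1_pt {θ θ1 θ2 : ℝ} (hθ : 0 < θ) (hθ1 : 0 < θ1) (hθ2 : 0 < θ2) {η : Om N} {f : ℕ → Y N} {j i : ℕ}
    (hf : hd f j i ∈ Xs N K m) {s : S N} (hs : Inv K 4 R0 s) (q0 : QuietL K h R0 s (av f (j + 1) i))
    (q1 : QuietL K h R0 s (av f j (2 * i))) (q2 : QuietL K h R0 s (av f j (2 * i + 1))) :
    |pr K m η (hd f j i)| ≤ (θ + θ1) * nq K η + eQ K m L ε h R0 θ θ1 θ2 s (av f (j + 1) i) (av f j (2 * i)) ∧
    |pr K m η (hd f j i)| ≤ (θ + θ1) * nq K η + eQ K m L ε h R0 θ θ1 θ2 s (av f (j + 1) i) (av f j (2 * i + 1)) := by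
  have e1 : av f j (2 * i) - av f (j + 1) i = -hd f j i := by
    rw [av_lo]
    abel
  have e2 : av f j (2 * i + 1) - av f (j + 1) i = hd f j i := by
    rw [av_hi]
    abel
  have g1 := gen_quiet (K := K) (m := m) (L := L) (ε := ε) hθ hθ1 hθ2 q0 q1 (fun q => |η q|) (fun q => |η q|)
    (fun _ => 0) (T := pr K m η (hd f j i)) (pr_split (okh_len hs.ok) _ η hf (Or.inr e1))
  have g2 := gen_quiet (K := K) (m := m) (L := L) (ε := ε) hθ hθ1 hθ2 q0 q2 (fun q => |η q|) (fun q => |η q|)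
    (fun _ => 0) (T := pr K m η (hd f j i)) (pr_split (okh_len hs.ok) _ η hf (Or.inl e2))
  rw [sum_abs_sq] at g1 g2
  have e3 : ∑ q ∈ insert ([] : Nd N) (nds N K), (0 : ℝ) ^ 2 = 0 := by simp
  rw [e3] at g1 g2
  refine ⟨?_, ?_⟩
  · linarith
  · linarith

private theorem Lam_sub (M : Finset (Nd N)) (v : Nd N → ℂ) (ω : Om N) (y z : Y N) :
    Lam K m L ε M v ω (y - z) = Lam K m L ε M v ω y - Lam K m L ε M v ω z := by
  have h1 := Lam_add (K := K) (m := m) (L := L) (ε := ε) M v ω (y - z) z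
  rw [sub_add_cancel] at h1
  linarith

/-- the squares of the three families of coefficients of `(L4)`, with a factor `c` -/
theorem coef_le {θ θ1 θ2 c : ℝ} (hθ1 : 0 < θ1) (hθ2 : 0 < θ2) (hK : 1 ≤ K) (hN : 1 ≤ N)
    {ω ω' : Om N} (hω : BB K 4 ω) (hω' : BB K 4 ω') :
    θ * ∑ q ∈ nds N K, (c * |ω' q - ω q|) ^ 2 + θ1 * ∑ q ∈ nds N K, (c * bb K m ω ω' q) ^ 2 +
      θ2 * ∑ q ∈ insert [] (nds N K), (c * bbN K m ω ω' q) ^ 2 ≤ ctb K m N θ θ1 θ2 * (c ^ 2 * nq K (ω' - ω)) := by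
  have hE : nq K (ω' - ω) = ∑ w ∈ nds N K, (ω' w - ω w) ^ 2 := rfl
  have h1 := sum_bb_le (m := m) hK hω hω'
  have h2 := sum_bbN_le (m := m) hK hN hω hω'
  rw [← hE] at h1 h2
  have e1 : ∑ q ∈ nds N K, (c * |ω' q - ω q|) ^ 2 = c ^ 2 * nq K (ω' - ω) := by
    rw [hE, Finset.mul_sum]
    refine Finset.sum_congr rfl fun q _ => ?_
    rw [mul_pow, sq_abs]
  have e2 : ∑ q ∈ nds N K, (c * bb K m ω ω' q) ^ 2 = c ^ 2 * ∑ q ∈ nds N K, bb K m ω ω' q ^ 2 := by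
    rw [Finset.mul_sum]
    refine Finset.sum_congr rfl fun q _ => ?_
    rw [mul_pow]
  have e3 : ∑ q ∈ insert [] (nds N K), (c * bbN K m ω ω' q) ^ 2 =
      c ^ 2 * ∑ q ∈ insert [] (nds N K), bbN K m ω ω' q ^ 2 := by
    rw [Finset.mul_sum]
    refine Finset.sum_congr rfl fun q _ => ?_
    rw [mul_pow]
  rw [e1, e2, e3]
  have k1 := mul_le_mul_of_nonneg_left h1 (mul_nonneg hθ1.le (sq_nonneg c))
  have k2 := mul_le_mul_of_nonneg_left h2 (mul_nonneg hθ2.le (sq_nonneg c))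
  unfold ctb
  linarith

private theorem Lam_diff_mul (hm : 2 ≤ m) {M : Finset (Nd N)} (hM : PC M) (v : Nd N → ℂ) (ω ω' : Om N) (y : Y N)
    {c : ℝ} (hc : 0 ≤ c) :
    |c * (Lam K m L ε M v ω' y - Lam K m L ε M v ω y)| ≤
      ∑ p ∈ (nds N K).filter (fun p => p ∈ M), (c * |ω' p - ω p|) * |FF K m L ε M v p y| +
      ∑ q ∈ (nds N K).filter (fun q => q ∉ M), (c * bb K m ω ω' q) * ‖y q‖ +
      ∑ q ∈ insert [] (nds N K), (c * bbN K m ω ω' q) * ‖y q‖ := by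
  have h1 := mul_le_mul_of_nonneg_left (Lam_diff_le (K := K) (L := L) (ε := ε) hm hM v ω ω' y) hc
  rw [abs_mul, abs_of_nonneg hc]
  refine h1.trans (le_of_eq ?_)
  rw [mul_add, mul_add, Finset.mul_sum, Finset.mul_sum, Finset.mul_sum]
  simp only [mul_assoc]

private theorem bb_le (hm : 2 ≤ m) {c : ℝ} (hc : 0 ≤ c) {ω ω' : Om N} (hω : BB K c ω) (hω' : BB K c ω') {q : Nd N}
    (hq : q ∈ nds N K) : bb K m ω ω' q ≤ 8 * c * rp m := by
  have h1 := abs_FQ_le hc (fun w hw => hω.abs_le hw) hq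
  have h2 := abs_FQ_le hc (fun w hw => hω'.abs_le hw) hq
  have h3 := hω.abs_le hq
  have h4 := hω'.abs_le hq
  have hrp : 0 ≤ rp m := by linarith [one_le_rp hm]
  have h5 : |ω' q - ω q| ≤ 2 * c := by
    have := abs_sub (ω' q) (ω q)
    linarith
  have h6 : |FQ K ω' q - FQ K ω q| ≤ 2 * c := by
    have := abs_sub (FQ K ω' q) (FQ K ω q)
    linarith
  unfold bb
  have h7 : |ω' q - ω q| + |FQ K ω' q - FQ K ω q| ≤ 4 * c := by linarith
  have h8 := mul_le_mul_of_nonneg_left h7 (mul_nonneg (by norm_num : (0:ℝ) ≤ 2) hrp)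
  linarith

/-- universal energy of the noisy steps -/
noncomputable def eR (K m L : ℕ) (ε h : ℝ) (R0 : ℕ) (θ θ1 θ2 bmax : ℝ) (s : S N) (y y' : Y N) : ℝ :=
  eQ K m L ε h R0 θ θ1 θ2 s y y' + bmax * (2 * 4) * eN K h s y y'

/-- one step from a window to a cell, coarse part -/
theorem W3_pt {θ θ1 θ2 : ℝ} (hθ : 0 < θ) (hθ1 : 0 < θ1) (hθ2 : 0 < θ2) (hK : 1 ≤ K) (hN : 1 ≤ N) (hm : 2 ≤ m)
    {D : Wd N} (hD : D.OK K m) (hW : 0 < D.W) (hJ : J ≤ D.d) {s : S N} (hs : Inv K 4 R0 s)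
    (hq : QuietL K h R0 s D.yQ) {x : ℕ} (hx : x ∈ D.ne) :
    D.vv x * |D.TC K m L ε s.σ.M s.σ.v J x (D.phc x true - D.phc x false)| ≤
      ctb K m N θ θ1 θ2 * (D.vv x * nq K (dsl J D.om x)) +
        ∑ c, D.w x c * eR K m L ε h R0 θ θ1 θ2 (8 * rp m * (2 ^ J)⁻¹) s D.yQ (D.phc x c) := by
  have hxlt := (Wd.mem_ne.1 hx).1
  have hp : (0 : ℝ) < 2 ^ J := by positivity
  have hpi : (0 : ℝ) < ((2 : ℝ) ^ J)⁻¹ := by positivity
  have hPC := okh_PC hs.ok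
  -- the two multiples of `2^J`
  have hX : x / 2 ^ J * 2 ^ J ≤ 2 ^ D.d := (Nat.div_mul_le_self x (2 ^ J)).trans hxlt.le
  have hdd : 2 ^ D.d = 2 ^ (D.d - J) * 2 ^ J := by
    rw [← pow_add]
    congr 1
    omega
  have hX' : (x / 2 ^ J + 1) * 2 ^ J ≤ 2 ^ D.d := by
    have h1 : x / 2 ^ J < 2 ^ (D.d - J) := by
      rw [Nat.div_lt_iff_lt_mul (by positivity), ← hdd]
      exact hxlt
    rw [hdd]
    exact Nat.mul_le_mul_right _ h1
  obtain ⟨ω, hω⟩ : ∃ ω, ω = D.om (x / 2 ^ J * 2 ^ J) := ⟨_, rfl⟩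
  obtain ⟨ω', hω'⟩ : ∃ ω', ω' = D.om ((x / 2 ^ J + 1) * 2 ^ J) := ⟨_, rfl⟩
  have hB : BB K 1 ω := by rw [hω]; exact hD.om_BB _ hX
  have hB' : BB K 1 ω' := by rw [hω']; exact hD.om_BB _ hX'
  have hdsl : dsl J D.om x = ((2 : ℝ) ^ J)⁻¹ • (ω' - ω) := by rw [hω, hω']; rfl
  have hTC : ∀ y, D.TC K m L ε s.σ.M s.σ.v J x y =
      ((2 : ℝ) ^ J)⁻¹ * (Lam K m L ε s.σ.M s.σ.v ω' y - Lam K m L ε s.σ.M s.σ.v ω y) := by
    intro y
    rw [hω, hω']
    rfl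
  have hnq : nq K (dsl J D.om x) = (((2 : ℝ) ^ J)⁻¹) ^ 2 * nq K (ω' - ω) := by
    rw [hdsl]
    unfold nq
    rw [Finset.mul_sum]
    refine Finset.sum_congr rfl fun w _ => ?_
    rw [Pi.smul_apply, smul_eq_mul, mul_pow]
  -- one side
  have hside : ∀ c : Bool, D.w x (!c) * |D.TC K m L ε s.σ.M s.σ.v J x (D.phc x c - D.yQ)| ≤
      ctb K m N θ θ1 θ2 * (D.w x (!c) ^ 2 * nq K (dsl J D.om x)) +
        eR K m L ε h R0 θ θ1 θ2 (8 * rp m * (2 ^ J)⁻¹) s D.yQ (D.phc x c) := by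
    intro c
    have hw0 := hD.w_nonneg x (!c)
    have hw1 : D.w x (!c) ≤ 1 := Wd.w_le_one hD x _
    have hcc : 0 ≤ D.w x (!c) * ((2 : ℝ) ^ J)⁻¹ := mul_nonneg hw0 hpi.le
    have hrp : 0 ≤ rp m := by linarith [one_le_rp hm]
    have g1 := gen_noisy (K := K) (m := m) (L := L) (ε := ε) (bmax := 8 * rp m * (2 ^ J)⁻¹) hθ hθ1 hθ2 hs
      (Wd.nr_yQ_le hD hW) (Wd.yQ_mem hD hW) (Wd.nr_phc_le hD hW hx c) (Wd.phc_mem hD hxlt c) hq
      (fun q => (D.w x (!c) * ((2 : ℝ) ^ J)⁻¹) * |ω' q - ω q|)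
      (fun q => (D.w x (!c) * ((2 : ℝ) ^ J)⁻¹) * bb K m ω ω' q)
      (fun q => (D.w x (!c) * ((2 : ℝ) ^ J)⁻¹) * bbN K m ω ω' q)
      (fun q hqn => by
        have k1 := bb_le hm (by norm_num) hB hB' hqn
        have k2 : 0 ≤ bb K m ω ω' q := by
          unfold bb
          positivity
        have k3 : D.w x (!c) * ((2 : ℝ) ^ J)⁻¹ ≤ ((2 : ℝ) ^ J)⁻¹ := by
          have := mul_le_mul_of_nonneg_right hw1 hpi.le
          linarith
        calc (D.w x (!c) * ((2 : ℝ) ^ J)⁻¹) * bb K m ω ω' q ≤ ((2 : ℝ) ^ J)⁻¹ * bb K m ω ω' q :=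
              mul_le_mul_of_nonneg_right k3 k2
          _ ≤ ((2 : ℝ) ^ J)⁻¹ * (8 * 1 * rp m) := mul_le_mul_of_nonneg_left k1 hpi.le
          _ = 8 * rp m * (2 ^ J)⁻¹ := by ring)
      (by positivity)
      (T := (D.w x (!c) * ((2 : ℝ) ^ J)⁻¹) * (Lam K m L ε s.σ.M s.σ.v ω' (D.phc x c - D.yQ) -
        Lam K m L ε s.σ.M s.σ.v ω (D.phc x c - D.yQ)))
      (Lam_diff_mul hm hPC _ ω ω' _ hcc)
    have g2 := coef_le (m := m) (θ := θ) (c := D.w x (!c) * ((2 : ℝ) ^ J)⁻¹) hθ1 hθ2 hK hN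
      (hB.mono (by norm_num)) (hB'.mono (by norm_num))
    have e1 : D.w x (!c) * |D.TC K m L ε s.σ.M s.σ.v J x (D.phc x c - D.yQ)| =
        |(D.w x (!c) * ((2 : ℝ) ^ J)⁻¹) * (Lam K m L ε s.σ.M s.σ.v ω' (D.phc x c - D.yQ) -
        Lam K m L ε s.σ.M s.σ.v ω (D.phc x c - D.yQ))| := by
      rw [hTC, mul_assoc, abs_mul (D.w x (!c)), abs_of_nonneg hw0]
    have e2 : D.w x (!c) ^ 2 * nq K (dsl J D.om x) = (D.w x (!c) * ((2 : ℝ) ^ J)⁻¹) ^ 2 * nq K (ω' - ω) := by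
      rw [hnq]
      ring
    rw [e1, e2]
    unfold eR
    linarith
  have ht := hside true
  have hf := hside false
  simp only [Bool.not_true, Bool.not_false] at ht hf
  have hsplit : D.TC K m L ε s.σ.M s.σ.v J x (D.phc x true - D.phc x false) =
      D.TC K m L ε s.σ.M s.σ.v J x (D.phc x true - D.yQ) - D.TC K m L ε s.σ.M s.σ.v J x (D.phc x false - D.yQ) := by
    simp only [hTC, Lam_sub]
    ring
  have habs : |D.TC K m L ε s.σ.M s.σ.v J x (D.phc x true - D.phc x false)| ≤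
      |D.TC K m L ε s.σ.M s.σ.v J x (D.phc x true - D.yQ)| +
        |D.TC K m L ε s.σ.M s.σ.v J x (D.phc x false - D.yQ)| := by
    rw [hsplit]
    exact abs_sub _ _
  have w0 := hD.w_nonneg x false
  have w1 := hD.w_nonneg x true
  have hvv : 0 ≤ D.vv x := mul_nonneg w0 w1
  have k1 := mul_le_mul_of_nonneg_left ht w1
  have k2 := mul_le_mul_of_nonneg_left hf w0
  have k3 := mul_le_mul_of_nonneg_left habs hvv
  have hws := hD.w_sum x
  rw [Fintype.sum_bool]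
  unfold Wd.vv at k3 ⊢
  have k4 : D.w x true * (ctb K m N θ θ1 θ2 * (D.w x false ^ 2 * nq K (dsl J D.om x))) +
      D.w x false * (ctb K m N θ θ1 θ2 * (D.w x true ^ 2 * nq K (dsl J D.om x))) =
      ctb K m N θ θ1 θ2 * (D.w x false * D.w x true * nq K (dsl J D.om x)) := by
    have : D.w x true * (ctb K m N θ θ1 θ2 * (D.w x false ^ 2 * nq K (dsl J D.om x))) +
      D.w x false * (ctb K m N θ θ1 θ2 * (D.w x true ^ 2 * nq K (dsl J D.om x))) =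
      ctb K m N θ θ1 θ2 * (D.w x false * D.w x true * nq K (dsl J D.om x)) * (D.w x false + D.w x true) := by
      ring
    rw [this, hws, mul_one]
  linarith

/-- one step from an interval to a cell, fine part -/
theorem W2_pt {θ θ1 θ2 : ℝ} (hθ : 0 < θ) (hθ1 : 0 < θ1) (hθ2 : 0 < θ2) (hK : 1 ≤ K) (hN : 1 ≤ N) (hm : 2 ≤ m)
    (hh : 0 ≤ h) {D : Wd N} (hD : D.OK K m) (hW : 0 < D.W) (hJ : J ≤ D.d) {s : S N} (hs : Inv K 4 R0 s)
    {x : ℕ} (hx : x ∈ D.ne) {s' : S N} (hs' : s' = s.note R0 (D.phI J (st J D.w x)) (D.aI K h J (st J D.w x))) :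
    D.w x (sd J D.w x) * |D.TF K m L ε s'.σ.M s'.σ.v J x (D.phc x (sd J D.w x) - D.phI J (st J D.w x))| ≤
      ctb K m N θ θ1 θ2 * (D.w x (sd J D.w x) * nq K (omf J D.om (x + 1) - omf J D.om x)) +
        D.w x (sd J D.w x) * eQ K m L ε h R0 θ θ1 θ2 s' (D.phI J (st J D.w x)) (D.phc x (sd J D.w x)) := by
  have hxlt := (Wd.mem_ne.1 hx).1
  obtain ⟨a, ha⟩ : ∃ a, a = st J D.w x := ⟨_, rfl⟩
  have hxa : x ∈ D.Iv J a := Wd.mem_Iv.2 ⟨hx, ha.symm⟩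
  have hsd := Wd.sd_of_mem hxa
  rw [← ha] at hs' ⊢
  have hI : Inv K 4 R0 s' := by
    rw [hs']
    exact inv_note hs (Wd.phI_mem hD J a) (Wd.nr_phI_le hD hW J a) (aI_sub D a)
  rcases (hD.w_nonneg x (sd J D.w x)).eq_or_lt with hw | hw
  · rw [← hw]
    simp
  -- the noted nodes
  have hbig : ∀ z ∈ D.Iv J a, D.w z (sid D.w a) ≠ 0 → QuietL K h R0 s' (D.phc z (sid D.w a)) := by
    intro z hz hz2
    rw [hs']
    refine quietL_note hs (Wd.phI_mem hD J a) (Wd.nr_phI_le hD hW J a) (aI_sub D a) _ fun q hq => ?_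
    unfold Wd.aI
    exact Finset.mem_filter.2 ⟨(mem_big.1 hq).1, z, hz, hz2, (mem_big.1 hq).2⟩
  have q2 : QuietL K h R0 s' (D.phc x (sd J D.w x)) := by
    rw [← hsd]
    exact hbig x hxa (by rw [hsd]; exact hw.ne')
  have q1 : QuietL K h R0 s' (D.phI J a) := by
    intro hc q hqn hqM
    have hwI : 0 ≤ D.wI J a := Wd.wI_nonneg hD a
    have e1 : ‖(∑ z ∈ D.Iv J a, D.w z (sid D.w a) • D.phc z (sid D.w a)) q‖ ≤ D.wI J a * h := by
      rw [Finset.sum_apply]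
      refine (norm_sum_le _ _).trans ?_
      unfold Wd.wI
      rw [Finset.sum_mul]
      refine Finset.sum_le_sum fun z hz => ?_
      rw [Pi.smul_apply, norm_smul, Real.norm_eq_abs, abs_of_nonneg (hD.w_nonneg _ _)]
      by_cases hz2 : D.w z (sid D.w a) = 0
      · rw [hz2, zero_mul, zero_mul]
      · exact mul_le_mul_of_nonneg_left (hbig z hz hz2 hc q hqn hqM) (hD.w_nonneg _ _)
    have e2 : D.phI J a q = (D.wI J a)⁻¹ • (∑ z ∈ D.Iv J a, D.w z (sid D.w a) • D.phc z (sid D.w a)) q := rfl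
    rw [e2, norm_smul, norm_inv, Real.norm_eq_abs, abs_of_nonneg hwI]
    rcases hwI.eq_or_lt with h0 | h0
    · rw [← h0, inv_zero, zero_mul]
      exact hh
    · rw [inv_mul_le_iff₀ h0]
      exact e1
  have hB : BB K 4 (omf J D.om x) := (omf_BB hJ hD.om_BB hxlt.le).mono (by norm_num)
  have hB' : BB K 4 (omf J D.om (x + 1)) := (omf_BB hJ hD.om_BB hxlt).mono (by norm_num)
  have g1 := gen_quiet (K := K) (m := m) (L := L) (ε := ε) hθ hθ1 hθ2 q1 q2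
      (fun q => 1 * |omf J D.om (x + 1) q - omf J D.om x q|)
      (fun q => 1 * bb K m (omf J D.om x) (omf J D.om (x + 1)) q)
      (fun q => 1 * bbN K m (omf J D.om x) (omf J D.om (x + 1)) q)
      (T := 1 * (Lam K m L ε s'.σ.M s'.σ.v (omf J D.om (x + 1)) (D.phc x (sd J D.w x) - D.phI J a) -
        Lam K m L ε s'.σ.M s'.σ.v (omf J D.om x) (D.phc x (sd J D.w x) - D.phI J a)))
      (Lam_diff_mul hm (okh_PC hI.ok) _ _ _ _ zero_le_one)
  have g2 := coef_le (m := m) (θ := θ) (c := 1) hθ1 hθ2 hK hN hB hB'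
  have e3 : D.TF K m L ε s'.σ.M s'.σ.v J x (D.phc x (sd J D.w x) - D.phI J a) =
      1 * (Lam K m L ε s'.σ.M s'.σ.v (omf J D.om (x + 1)) (D.phc x (sd J D.w x) - D.phI J a) -
        Lam K m L ε s'.σ.M s'.σ.v (omf J D.om x) (D.phc x (sd J D.w x) - D.phI J a)) := by
    rw [one_mul]
    rfl
  rw [one_pow, one_mul] at g2
  rw [e3]
  have g3 := g1.trans (add_le_add_left g2 _)
  have g4 := mul_le_mul_of_nonneg_left g3 hw.le
  linarith

end H50RC
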