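import Pool.Agent.H80.RC.P1r
import Pool.Agent.H80.RC.Wpt
import Pool.Agent.H83.RC.Wm
import Pool.Agent.H83.RC.Em

/-!
S05864 [H80 RC TSM] (PART C6 of proofs 322): the three parts of the window terms, summed over a phase.
-/

set_option autoImplicit false

namespace H50RC

variable {N K m L R0 J : ℕ} {ε h C1 : ℝ}

/-- monotonicity over the windows of a phase with positive weight -/
theorem sum_mono_pos {f g : Wd N → ℝ} (hfg : ∀ D : Wd N, D.OK K m → 0 < D.W → f D ≤ g D) (t : PTr N) :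
    t.OK K m → 0 < t.W → t.sum f ≤ t.sum g := by
  induction t with
  | leaf lv W ν y =>
    intro _ _
    exact le_rfl
  | node D sub ih =>
    intro hOK hW
    have hD : D.OK K m := hOK.1
    have hW' : 0 < D.W := hW
    rw [PTr.sum_node, PTr.sum_node]
    refine add_le_add (hfg D hD hW') (Finset.sum_le_sum fun x hx => ?_)
    have key : ∀ c, (if D.w x c = 0 then 0 else (sub x c).sum f) ≤ (if D.w x c = 0 then 0 else (sub x c).sum g) := by
      intro c
      split_ifs with hc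
      · exact le_rfl
      · obtain ⟨c1, c2, c3, c4, c5⟩ := child hOK hW' hx hc
        exact ih x c c1 c3
    exact add_le_add (key false) (key true)

theorem abs_sum_le (f : Wd N → ℝ) (t : PTr N) : |t.sum f| ≤ t.sum (fun D => |f D|) := by
  induction t with
  | leaf lv W ν y => simp [PTr.sum]
  | node D sub ih =>
    rw [PTr.sum_node, PTr.sum_node]
    refine (abs_add_le _ _).trans (add_le_add le_rfl ?_)
    refine (Finset.abs_sum_le_sum_abs _ _).trans (Finset.sum_le_sum fun x _ => ?_)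
    refine (abs_add_le _ _).trans (add_le_add ?_ ?_)
    · split_ifs
      · rw [abs_zero]
      · exact ih x false
    · split_ifs
      · rw [abs_zero]
      · exact ih x true

theorem eR_nonneg {θ θ1 θ2 bmax : ℝ} (hθ : 0 < θ) (hθ1 : 0 < θ1) (hθ2 : 0 < θ2) (hb : 0 ≤ bmax) (s : S N) (y y' : Y N) :
    0 ≤ eR K m L ε h R0 θ θ1 θ2 bmax s y y' := by
  unfold eR
  have h1 := eQ_nonneg (K := K) (m := m) (L := L) (ε := ε) (h := h) (R0 := R0) hθ hθ1 hθ2 s y y'
  have h2 := eN_nonneg (K := K) (h := h) s y y'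
  have h3 : 0 ≤ bmax * (2 * 4) * eN K h s y y' := mul_nonneg (by positivity) h2
  linarith

theorem ctb_nonneg {θ θ1 θ2 : ℝ} (hθ : 0 < θ) (hθ1 : 0 < θ1) (hθ2 : 0 < θ2) : 0 ≤ ctb K m N θ θ1 θ2 := by
  unfold ctb
  positivity

/-- the part `G` -/
theorem T1 {θ θ1 θ2 : ℝ} (hθ : 0 < θ) (hθ1 : 0 < θ1) (hθ2 : 0 < θ2) {t : PTr N} (hOK : t.OK K m) (hW : 0 < t.W) :
    t.sum (fun D => D.gs K m (D.jj J)) ≤ (θ + θ1) * t.sum (fun D => D.en1 K J) +
      t.W * (P1 K h t).ES R0 (eQ K m L ε h R0 θ θ1 θ2) (S.init N) t.nv := by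
  have h1 := P1_rec (R0 := R0) (h := h) (E := eQ K m L ε h R0 θ θ1 θ2)
    (G := fun D j i => |pr K m (hd (D.nuref (D.jj J)) j i) (hd D.ph j i)|)
    (C := fun D j i => (θ + θ1) * nq K (hd (D.nuref (D.jj J)) j i))
    (fun s y y' => eQ_nonneg hθ hθ1 hθ2 s y y')
    (fun D hD hW j i hi s hs q0 q1 q2 => W1_pt hθ hθ1 hθ2 (Wd.hd_ph_mem hD hi) hs q0 q1 q2)
    t hOK hW (S.init N) inv_init
  have h2 : t.sum (fun D => D.Wx * dy (fun j i => (θ + θ1) * nq K (hd (D.nuref (D.jj J)) j i)) D.d 0) =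
      (θ + θ1) * t.sum (fun D => D.en1 K J) := by
    rw [← PTr.sum_mul]
    congr 1
    funext D
    rw [dy_mul]
    unfold Wd.en1
    ring
  rw [h2] at h1
  exact h1

/-- the coarse part -/
theorem T3 {θ θ1 θ2 : ℝ} (hθ : 0 < θ) (hθ1 : 0 < θ1) (hθ2 : 0 < θ2) (hK : 1 ≤ K) (hN : 1 ≤ N) (hm : 2 ≤ m)
    (hC : 0 ≤ C1) (hLOK : ∀ s : S N, Inv K 4 R0 s → LOK K m L ε C1 s.σ.M s.σ.v)
    {t : PTr N} (hOK : t.OK K m) (hW : 0 < t.W) :
    t.sum (fun D => D.dco K m J) ≤ ctb K m N θ θ1 θ2 * t.sum (fun D => D.en3 K J) +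
      20 * C1 * (t.sum (Wd.V K) + t.sum Wd.SE) +
      t.W * (P3 K h t).ES R0 (eR K m L ε h R0 θ θ1 θ2 (8 * rp m * (2 ^ J)⁻¹)) (S.init N) t.nv := by
  have hrp : 0 ≤ rp m := by linarith [one_le_rp hm]
  have hbm : (0 : ℝ) ≤ 8 * rp m * (2 ^ J)⁻¹ := by positivity
  have hct := ctb_nonneg (K := K) (m := m) (N := N) hθ hθ1 hθ2
  have h1 := P3_rec (R0 := R0) (h := h) (E := eR K m L ε h R0 θ θ1 θ2 (8 * rp m * (2 ^ J)⁻¹))
    (X := fun D : Wd N => D.dco K m J)
    (C := fun D : Wd N => ctb K m N θ θ1 θ2 * D.en3 K J + 20 * C1 * (D.V K + D.SE))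
    (K := K) (m := m)
    (fun s y y' => eR_nonneg hθ hθ1 hθ2 hbm s y y')
    (fun D hD hW s hs hq => by
      have hWx := Wd.Wx_pos hW
      have hV := D.V_nonneg (K := K)
      have hS := Wd.SE_nonneg hD
      by_cases hJ : J ≤ D.d
      · have g1 := Wd.dco_le hD hW hC (hLOK s hs) hJ
        have g2 : D.cs K m L ε s.σ.M s.σ.v J ≤ ctb K m N θ θ1 θ2 * D.en3 K J + D.Wx * ∑ x ∈ D.ne,
            ∑ c, D.w x c * eR K m L ε h R0 θ θ1 θ2 (8 * rp m * (2 ^ J)⁻¹) s D.yQ (D.phc x c) := by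
          unfold Wd.cs Wd.en3
          rw [if_pos hJ]
          have e1 : ctb K m N θ θ1 θ2 * (D.Wx * ∑ x ∈ D.ne, D.vv x * nq K (dsl J D.om x)) + D.Wx * ∑ x ∈ D.ne,
            ∑ c, D.w x c * eR K m L ε h R0 θ θ1 θ2 (8 * rp m * (2 ^ J)⁻¹) s D.yQ (D.phc x c) =
              D.Wx * ∑ x ∈ D.ne, (ctb K m N θ θ1 θ2 * (D.vv x * nq K (dsl J D.om x)) +
                ∑ c, D.w x c * eR K m L ε h R0 θ θ1 θ2 (8 * rp m * (2 ^ J)⁻¹) s D.yQ (D.phc x c)) := by
            rw [Finset.sum_add_distrib, ← Finset.mul_sum]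
            ring
          rw [e1]
          exact mul_le_mul_of_nonneg_left (Finset.sum_le_sum fun x hx =>
            W3_pt hθ hθ1 hθ2 hK hN hm hD hW hJ hs hq hx) hWx.le
        linarith
      · have e1 : D.dco K m J = 0 := by
          unfold Wd.dco
          rw [if_neg hJ]
        have e2 : D.en3 K J = 0 := by
          unfold Wd.en3
          rw [if_neg hJ]
        rw [e1, e2, mul_zero, zero_add]
        have e3 : 0 ≤ D.Wx * ∑ x ∈ D.ne,
            ∑ c, D.w x c * eR K m L ε h R0 θ θ1 θ2 (8 * rp m * (2 ^ J)⁻¹) s D.yQ (D.phc x c) :=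
          mul_nonneg hWx.le (Finset.sum_nonneg fun x _ => Finset.sum_nonneg fun c _ =>
            mul_nonneg (hD.w_nonneg x c) (eR_nonneg hθ hθ1 hθ2 hbm _ _ _))
        have e4 : 0 ≤ 20 * C1 * (D.V K + D.SE) := by positivity
        linarith)
    t hOK hW (S.init N) inv_init
  have h2 : t.sum (fun D : Wd N => ctb K m N θ θ1 θ2 * D.en3 K J + 20 * C1 * (D.V K + D.SE)) =
      ctb K m N θ θ1 θ2 * t.sum (fun D => D.en3 K J) + 20 * C1 * (t.sum (Wd.V K) + t.sum Wd.SE) := by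
    rw [PTr.sum_add, PTr.sum_mul, PTr.sum_mul, PTr.sum_add]
  rw [h2] at h1
  exact h1

/-- the fine part -/
theorem T2 {θ θ1 θ2 : ℝ} (hθ : 0 < θ) (hθ1 : 0 < θ1) (hθ2 : 0 < θ2) (hK : 1 ≤ K) (hN : 1 ≤ N) (hm : 2 ≤ m)
    (hh : 0 ≤ h) (hC : 0 ≤ C1) (hLOK : ∀ s : S N, Inv K 4 R0 s → LOK K m L ε C1 s.σ.M s.σ.v)
    {t : PTr N} (hOK : t.OK K m) (hW : 0 < t.W) :
    t.sum (fun D => D.dfi K m J) ≤ ctb K m N θ θ1 θ2 * t.sum (fun D => D.en2 K J) +
      450 * C1 * (t.sum (Wd.V K) + t.sum Wd.SE) +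
      t.W * (P2 K h J t).ES R0 (eQ K m L ε h R0 θ θ1 θ2) (S.init N) t.nv := by
  have hct := ctb_nonneg (K := K) (m := m) (N := N) hθ hθ1 hθ2
  have h1 := P2_rec (R0 := R0) (h := h) (J := J) (E := eQ K m L ε h R0 θ θ1 θ2)
    (X := fun D : Wd N => D.dfi K m J)
    (C := fun D : Wd N => ctb K m N θ θ1 θ2 * D.en2 K J + 450 * C1 * (D.V K + D.SE))
    (K := K) (m := m)
    (fun s y y' => eQ_nonneg hθ hθ1 hθ2 s y y')
    (fun D hD hW hJ => by
      have hV := D.V_nonneg (K := K)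
      have hS := Wd.SE_nonneg hD
      have e1 : D.dfi K m J = 0 := by
        unfold Wd.dfi
        rw [if_neg (not_le.2 hJ)]
      have e2 : D.en2 K J = 0 := by
        unfold Wd.en2
        rw [if_neg (not_le.2 hJ)]
      rw [e1, e2, mul_zero, zero_add]
      positivity)
    (fun D hD hW hJ s hs => by
      have hWx := Wd.Wx_pos hW
      have hLOK' : ∀ a, LOK K m L ε C1 (s.note R0 (D.phI J a) (D.aI K h J a)).σ.M
          (s.note R0 (D.phI J a) (D.aI K h J a)).σ.v := fun a =>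
        hLOK _ (inv_note hs (Wd.phI_mem hD J a) (Wd.nr_phI_le hD hW J a) (aI_sub D a))
      have g1 := Wd.dfi_le hD hW hC hLOK' hJ
      have g2 : D.fs K m L ε (fun a => (s.note R0 (D.phI J a) (D.aI K h J a)).σ.M)
          (fun a => (s.note R0 (D.phI J a) (D.aI K h J a)).σ.v) J ≤ ctb K m N θ θ1 θ2 * D.en2 K J +
          D.Wx * ∑ x ∈ D.ne, D.w x (sd J D.w x) * eQ K m L ε h R0 θ θ1 θ2
            (s.note R0 (D.phI J (st J D.w x)) (D.aI K h J (st J D.w x))) (D.phI J (st J D.w x))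
              (D.phc x (sd J D.w x)) := by
        have hfar : D.far J ⊆ D.ne := by
          intro x hx
          unfold Wd.far at hx
          simp only [Finset.mem_filter] at hx
          exact hx.1
        have e0 : ∑ x ∈ D.far J, D.w x (sd J D.w x) * eQ K m L ε h R0 θ θ1 θ2
            (s.note R0 (D.phI J (st J D.w x)) (D.aI K h J (st J D.w x))) (D.phI J (st J D.w x))
              (D.phc x (sd J D.w x)) ≤ ∑ x ∈ D.ne, D.w x (sd J D.w x) * eQ K m L ε h R0 θ θ1 θ2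
            (s.note R0 (D.phI J (st J D.w x)) (D.aI K h J (st J D.w x))) (D.phI J (st J D.w x))
              (D.phc x (sd J D.w x)) :=
          Finset.sum_le_sum_of_subset_of_nonneg hfar fun x _ _ =>
            mul_nonneg (hD.w_nonneg _ _) (eQ_nonneg hθ hθ1 hθ2 _ _ _)
        have e1 := mul_le_mul_of_nonneg_left e0 hWx.le
        refine le_trans ?_ (add_le_add le_rfl e1)
        unfold Wd.fs Wd.en2
        rw [if_pos hJ]
        have e2 : ctb K m N θ θ1 θ2 * (D.Wx * ∑ x ∈ D.far J, D.w x (sd J D.w x) *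
            nq K (omf J D.om (x + 1) - omf J D.om x)) +
            D.Wx * ∑ x ∈ D.far J, D.w x (sd J D.w x) * eQ K m L ε h R0 θ θ1 θ2
            (s.note R0 (D.phI J (st J D.w x)) (D.aI K h J (st J D.w x))) (D.phI J (st J D.w x))
              (D.phc x (sd J D.w x)) =
            D.Wx * ∑ x ∈ D.far J, (ctb K m N θ θ1 θ2 * (D.w x (sd J D.w x) *
              nq K (omf J D.om (x + 1) - omf J D.om x)) +
              D.w x (sd J D.w x) * eQ K m L ε h R0 θ θ1 θ2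
            (s.note R0 (D.phI J (st J D.w x)) (D.aI K h J (st J D.w x))) (D.phI J (st J D.w x))
              (D.phc x (sd J D.w x))) := by
          rw [Finset.sum_add_distrib, ← Finset.mul_sum]
          ring
        rw [e2]
        exact mul_le_mul_of_nonneg_left (Finset.sum_le_sum fun x hx =>
          W2_pt hθ hθ1 hθ2 hK hN hm hh hD hW hJ hs (hfar hx) rfl) hWx.le
      linarith)
    t hOK hW (S.init N) inv_init
  have h2 : t.sum (fun D : Wd N => ctb K m N θ θ1 θ2 * D.en2 K J + 450 * C1 * (D.V K + D.SE)) =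
      ctb K m N θ θ1 θ2 * t.sum (fun D => D.en2 K J) + 450 * C1 * (t.sum (Wd.V K) + t.sum Wd.SE) := by
    rw [PTr.sum_add, PTr.sum_mul, PTr.sum_mul, PTr.sum_add]
  rw [h2] at h1
  exact h1

/-- the window terms of a phase: everything together -/
theorem Tall {θ θ1 θ2 : ℝ} (hθ : 0 < θ) (hθ1 : 0 < θ1) (hθ2 : 0 < θ2) (hK : 1 ≤ K) (hN : 1 ≤ N) (hm : 2 ≤ m)
    (hh : 0 ≤ h) (hC : 0 ≤ C1) (hLOK : ∀ s : S N, Inv K 4 R0 s → LOK K m L ε C1 s.σ.M s.σ.v)
    {t : PTr N} (hOK : t.OK K m) (hW : 0 < t.W) :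
    |t.sum (Wd.win K m)| ≤ (θ + θ1 + 2 * ctb K m N θ θ1 θ2) *
        (2000 * K * (t.W + t.sum (Wd.V K) + t.sum Wd.SE)) +
      970 * C1 * (t.sum (Wd.V K) + t.sum Wd.SE) + 8 * C1 * (J * t.W) +
      t.W * ((P1 K h t).ES R0 (eQ K m L ε h R0 θ θ1 θ2) (S.init N) t.nv +
        (P2 K h J t).ES R0 (eQ K m L ε h R0 θ θ1 θ2) (S.init N) t.nv +
        (P3 K h t).ES R0 (eR K m L ε h R0 θ θ1 θ2 (8 * rp m * (2 ^ J)⁻¹)) (S.init N) t.nv) := by
  have hct := ctb_nonneg (K := K) (m := m) (N := N) hθ hθ1 hθ2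
  have h1 := T1 (K := K) (m := m) (L := L) (ε := ε) (h := h) (R0 := R0) (J := J) hθ hθ1 hθ2 hOK hW
  have h2 := T2 (K := K) (m := m) (L := L) (ε := ε) (h := h) (R0 := R0) (J := J) hθ hθ1 hθ2 hK hN hm hh hC hLOK hOK hW
  have h3 := T3 (K := K) (m := m) (L := L) (ε := ε) (h := h) (R0 := R0) (J := J) hθ hθ1 hθ2 hK hN hm hC hLOK hOK hW
  obtain ⟨e1, e2, e3⟩ := PTr.sum_en_le hOK J
  have h4 := PTr.sum_triv_le J hOK
  have h5 : t.sum (fun D => |D.win K m|) ≤ t.sum (fun D => ((((D.gs K m (D.jj J) + D.dco K m J) + D.dfi K m J) +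
      (8 * C1) * (if J ≤ D.d then 0 else D.W)) + (500 * C1) * (D.V K + D.SE))) :=
    sum_mono_pos (K := K) (m := m) (fun D hD hW => by
      have := Wd.win_le hD hW hC (hLOK (S.init N) inv_init) J
      refine this.trans (le_of_eq ?_)
      by_cases hJ : J ≤ D.d
      · rw [if_pos hJ, if_pos hJ]
        ring
      · rw [if_neg hJ, if_neg hJ]) t hOK hW
  rw [PTr.sum_add, PTr.sum_add, PTr.sum_add, PTr.sum_add, PTr.sum_mul, PTr.sum_mul, PTr.sum_add] at h5
  have h6 := (abs_sum_le (Wd.win K m) t).trans h5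
  have k1 := mul_le_mul_of_nonneg_left e1 (add_nonneg hθ.le hθ1.le)
  have k2 := mul_le_mul_of_nonneg_left e2 hct
  have k3 := mul_le_mul_of_nonneg_left e3 hct
  have k4 := mul_le_mul_of_nonneg_left h4 (mul_nonneg (by norm_num : (0 : ℝ) ≤ 8) hC)
  linarith

end H50RC
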