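import Pool.Agent.H80.RC.Dyp

/-!
S05864 [H80 RC WCL] (PART C6 of proofs 322): facts about a window used for all three processes.
-/

set_option autoImplicit false

namespace H50RC

namespace Wd

variable {N K m : ℕ} {D : Wd N}

theorem mem_ne {x : ℕ} : x ∈ D.ne ↔ x < 2 ^ D.d ∧ x ∉ D.ex := by
  unfold ne
  rw [Finset.mem_sdiff, Finset.mem_range]

theorem yQ_eq : D.yQ = av D.ph D.d 0 := by
  unfold yQ av
  have h1 : D.W⁻¹ = ((2 : ℝ) ^ D.d)⁻¹ * D.Wx⁻¹ := by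
    rw [← mul_inv, sum_Wx]
  rw [h1, mul_smul, Finset.smul_sum]
  congr 1
  refine Finset.sum_congr rfl fun x _ => ?_
  rw [zero_mul, zero_add]
  rfl

theorem yQ_mem (h : D.OK K m) (hW : 0 < D.W) : D.yQ ∈ Vs N K := by
  rw [yQ_eq]
  exact av_mem_Vs (fun x hx => ph_mem h hx) (by omega)

theorem nr_yQ_le (h : D.OK K m) (hW : 0 < D.W) : nr K D.yQ ≤ 4 := by
  rw [yQ_eq]
  exact nr_av_le (fun x hx => nr_ph_le h hW hx) (by omega)

theorem y3_mem (h : D.OK K m) {x : ℕ} (hx : x < 2 ^ D.d) (c : Bool) : D.y3 x c ∈ Vs N K := by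
  unfold y3
  split_ifs
  · exact ph_mem h hx
  · exact phc_mem h hx c

theorem nr_y3_le (h : D.OK K m) (hW : 0 < D.W) {x : ℕ} (hx : x < 2 ^ D.d) (c : Bool) : nr K (D.y3 x c) ≤ 4 := by
  unfold y3
  split_ifs with hex
  · exact nr_ph_le h hW hx
  · exact nr_phc_le h hW (mem_ne.2 ⟨hx, hex⟩) c

/-- the mean over the two sides -/
theorem y3_mean (h : D.OK K m) (hW : 0 < D.W) {x : ℕ} (hx : x < 2 ^ D.d) :
    D.w x false • D.y3 x false + D.w x true • D.y3 x true = D.ph x := by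
  unfold y3
  split_ifs with hex
  · rw [← add_smul, h.w_sum, one_smul]
  · exact (ph_eq h hW (mem_ne.2 ⟨hx, hex⟩)).symm

theorem w_sum' (h : D.OK K m) (x : ℕ) (c : Bool) : D.w x (!c) + D.w x c = 1 := by
  cases c
  · rw [add_comm]
    exact h.w_sum x
  · exact h.w_sum x

end Wd

/-- the normalised value of a phase -/
noncomputable def PTr.nv {N : ℕ} (t : PTr N) : Y N := t.W⁻¹ • t.val

theorem nv_node {N : ℕ} (D : Wd N) (sub : ℕ → Bool → PTr N) : (PTr.node D sub).nv = D.yQ := rfl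

/-- data of a child -/
theorem child {N K m : ℕ} {D : Wd N} {sub : ℕ → Bool → PTr N} (h : (PTr.node D sub).OK K m) (hW : 0 < D.W)
    {x : ℕ} (hx : x ∈ D.ne) {c : Bool} (hc : D.w x c ≠ 0) :
    (sub x c).OK K m ∧ (sub x c).lv = D.lv + 1 ∧ 0 < (sub x c).W ∧ (sub x c).W = D.Wx * D.w x c ∧
      (sub x c).nv = D.phc x c := by
  have h' : D.OK K m ∧ ∀ x, x < 2 ^ D.d → x ∉ D.ex → ∀ c, D.w x c ≠ 0 →
      (sub x c).OK K m ∧ (sub x c).lv = D.lv + 1 ∧ (sub x c).W = D.Wx * D.w x c ∧ (sub x c).ν = D.nu x c ∧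
        (sub x c).val = D.y x c := h
  obtain ⟨h1, h2, h3, h4, h5⟩ := h'.2 x (Wd.mem_ne.1 hx).1 (Wd.mem_ne.1 hx).2 c hc
  have h6 : 0 < D.Wx * D.w x c :=
    mul_pos (Wd.Wx_pos hW) (lt_of_le_of_ne (h'.1.w_nonneg x c) (Ne.symm hc))
  refine ⟨h1, h2, by rw [h3]; exact h6, h3, ?_⟩
  unfold PTr.nv
  rw [h3, h5]
  rfl

theorem nv_mem {N K m : ℕ} {t : PTr N} (h : t.OK K m) (hW : 0 < t.W) : t.nv ∈ Vs N K := by
  cases t with
  | leaf lv W ν y =>
    have h' : 0 < W ∧ BB K 1 ν ∧ y ∈ Vs N K ∧ nr K y ≤ 4 * W := h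
    exact (Vs N K).smul_mem _ h'.2.2.1
  | node D sub =>
    have h' : D.OK K m := h.1
    exact Wd.yQ_mem h' hW

theorem nr_nv_le {N K m : ℕ} {t : PTr N} (h : t.OK K m) (hW : 0 < t.W) : nr K t.nv ≤ 4 := by
  cases t with
  | leaf lv W ν y =>
    have h' : 0 < W ∧ BB K 1 ν ∧ y ∈ Vs N K ∧ nr K y ≤ 4 * W := h
    have h1 : (PTr.leaf lv W ν y).nv = W⁻¹ • y := rfl
    rw [h1, nr_smul, abs_of_pos (inv_pos.2 h'.1), inv_mul_le_iff₀ h'.1]
    linarith [h'.2.2.2]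
  | node D sub =>
    have h' : D.OK K m := h.1
    exact Wd.nr_yQ_le h' hW

/-- sums over the two sides of the non-exits -/
theorem PTr.sum_node {N : ℕ} (f : Wd N → ℝ) (D : Wd N) (sub : ℕ → Bool → PTr N) :
    (PTr.node D sub).sum f = f D + ∑ x ∈ D.ne,
      ((if D.w x false = 0 then 0 else (sub x false).sum f) + (if D.w x true = 0 then 0 else (sub x true).sum f)) := by
  rfl

end H50RC
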